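import Pool.Agent.H252.EL.Iface
import Pool.Agent.H252.MD.Iface
import Pool.Agent.H30.MD.MD_GEN
import Pool.Agent.H378.MD_PP
import Pool.Agent.H860.MD_CPT
import Pool.Agent.H410.MD_COV

set_option autoImplicit false

/-!
# EL-CMP: comparison with a constant projection over a cube of dimension `d < 2 Δ`
-/

noncomputable section

namespace Pool.Agent.H597.ELCMP

open Filter Topology Matrix
open scoped ENNReal NNReal Matrix.Norms.L2Operator ComplexOrder
open Pool.Agent.H252.EL (Cb)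
open Pool.Agent.H252.MD (IsPP)

/-! ## Lipschitz approximation -/

/-- the subalgebra of the Lipschitz functions -/
def lipA (d : ℕ) : Subalgebra ℝ C(Cb d, ℝ) where
  carrier := {f | ∃ K : ℝ, 0 ≤ K ∧ ∀ y y' : Cb d, |f y - f y'| ≤ K * dist y y'}
  mul_mem' := by
    rintro f g ⟨K, hK, hf⟩ ⟨L, hL, hg⟩
    refine ⟨‖f‖ * L + ‖g‖ * K, by positivity, fun y y' => ?_⟩
    have e : (f * g) y - (f * g) y' = f y * (g y - g y') + g y' * (f y - f y') := by
      rw [ContinuousMap.mul_apply, ContinuousMap.mul_apply]; ring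
    rw [e]
    refine (abs_add_le _ _).trans ?_
    rw [abs_mul, abs_mul]
    have h1 : |f y| ≤ ‖f‖ := f.norm_coe_le_norm y
    have h2 : |g y'| ≤ ‖g‖ := g.norm_coe_le_norm y'
    have h3 := mul_le_mul h1 (hg y y') (abs_nonneg _) (norm_nonneg _)
    have h4 := mul_le_mul h2 (hf y y') (abs_nonneg _) (norm_nonneg _)
    calc |f y| * |g y - g y'| + |g y'| * |f y - f y'| ≤
        ‖f‖ * (L * dist y y') + ‖g‖ * (K * dist y y') := add_le_add h3 h4
      _ = (‖f‖ * L + ‖g‖ * K) * dist y y' := by ring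
  add_mem' := by
    rintro f g ⟨K, hK, hf⟩ ⟨L, hL, hg⟩
    refine ⟨K + L, by positivity, fun y y' => ?_⟩
    have e : (f + g) y - (f + g) y' = (f y - f y') + (g y - g y') := by
      rw [ContinuousMap.add_apply, ContinuousMap.add_apply]; ring
    rw [e, add_mul]
    exact (abs_add_le _ _).trans (add_le_add (hf y y') (hg y y'))
  algebraMap_mem' := by
    intro r
    refine ⟨0, le_rfl, fun y y' => ?_⟩
    have e : (algebraMap ℝ C(Cb d, ℝ) r) y - (algebraMap ℝ C(Cb d, ℝ) r) y' = 0 := sub_self _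
    rw [e, abs_zero, zero_mul]

theorem sep (d : ℕ) : (lipA d).SeparatesPoints := by
  intro x y hxy
  obtain ⟨i, hi⟩ := Function.ne_iff.1 hxy
  refine ⟨fun z => (z i : ℝ), ⟨⟨fun z => (z i : ℝ), by fun_prop⟩, ?_, rfl⟩, ?_⟩
  · refine ⟨1, zero_le_one, fun z z' => ?_⟩
    rw [one_mul]
    exact dist_le_pi_dist z z' i
  · exact fun h => hi (Subtype.ext h)

theorem lip_dense {d : ℕ} (f : C(Cb d, ℝ)) {ε : ℝ} (hε : 0 < ε) :
    ∃ (g : Cb d → ℝ) (K : ℝ), 0 ≤ K ∧ (∀ y, |g y - f y| ≤ ε) ∧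
      ∀ y y', |g y - g y'| ≤ K * dist y y' := by
  have h := ContinuousMap.subalgebra_topologicalClosure_eq_top_of_separatesPoints (lipA d) (sep d)
  have hf : f ∈ (lipA d).topologicalClosure := by rw [h]; trivial
  have hf' : f ∈ closure ((lipA d : Subalgebra ℝ C(Cb d, ℝ)) : Set C(Cb d, ℝ)) := hf
  obtain ⟨g, ⟨K, hK, hg⟩, hd⟩ := Metric.mem_closure_iff.1 hf' ε hε
  refine ⟨g, K, hK, fun y => ?_, hg⟩
  have h1 : dist (f y) (g y) ≤ dist f g := ContinuousMap.dist_apply_le_dist y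
  rw [Real.dist_eq, abs_sub_comm] at h1
  exact h1.trans hd.le

theorem lip_dense_C {d : ℕ} (f : Cb d → ℂ) (hf : Continuous f) {ε : ℝ} (hε : 0 < ε) :
    ∃ (g : Cb d → ℂ) (K : ℝ), 0 ≤ K ∧ (∀ y, ‖g y - f y‖ ≤ ε) ∧
      ∀ y y', ‖g y - g y'‖ ≤ K * dist y y' := by
  obtain ⟨g₁, K₁, hK₁, h₁, l₁⟩ := lip_dense ⟨fun y => (f y).re, Complex.continuous_re.comp hf⟩
    (half_pos hε)
  obtain ⟨g₂, K₂, hK₂, h₂, l₂⟩ := lip_dense ⟨fun y => (f y).im, Complex.continuous_im.comp hf⟩
    (half_pos hε)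
  refine ⟨fun y => (g₁ y : ℂ) + (g₂ y : ℂ) * Complex.I, K₁ + K₂, by positivity, fun y => ?_,
    fun y y' => ?_⟩
  · refine (Complex.norm_le_abs_re_add_abs_im _).trans ?_
    have e1 : ((g₁ y : ℂ) + (g₂ y : ℂ) * Complex.I - f y).re = g₁ y - (f y).re := by simp
    have e2 : ((g₁ y : ℂ) + (g₂ y : ℂ) * Complex.I - f y).im = g₂ y - (f y).im := by simp
    rw [e1, e2]
    have := h₁ y
    have := h₂ y
    simp only [ContinuousMap.coe_mk] at *
    linarith
  · refine (Complex.norm_le_abs_re_add_abs_im _).trans ?_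
    have e1 : ((g₁ y : ℂ) + (g₂ y : ℂ) * Complex.I - ((g₁ y' : ℂ) + (g₂ y' : ℂ) * Complex.I)).re =
      g₁ y - g₁ y' := by simp
    have e2 : ((g₁ y : ℂ) + (g₂ y : ℂ) * Complex.I - ((g₁ y' : ℂ) + (g₂ y' : ℂ) * Complex.I)).im =
      g₂ y - g₂ y' := by simp
    rw [e1, e2, add_mul]
    exact add_le_add (l₁ y y') (l₂ y y')

variable {J : Type} [Fintype J] [DecidableEq J]

theorem mat_approx {d : ℕ} (a : Cb d → Matrix J J ℂ) (ha : Continuous a)
    (hh : ∀ y, (a y).IsHermitian) {ε : ℝ} (hε : 0 < ε) :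
    ∃ (a' : Cb d → Matrix J J ℂ) (K : ℝ), 0 ≤ K ∧ (∀ y, (a' y).IsHermitian) ∧
      (∀ y k l, ‖a' y k l - a y k l‖ ≤ ε) ∧
      ∀ y y' k l, ‖a' y k l - a' y' k l‖ ≤ K * dist y y' := by
  have h : ∀ k l, ∃ (g : Cb d → ℂ) (K : ℝ), 0 ≤ K ∧ (∀ y, ‖g y - a y k l‖ ≤ ε) ∧
      ∀ y y', ‖g y - g y'‖ ≤ K * dist y y' := fun k l =>
    lip_dense_C (fun y => a y k l) (ha.matrix_elem k l) hε
  choose g K hK hg lg using h
  have hKs : ∀ k l, K k l ≤ ∑ k, ∑ l, K k l := fun k l =>
    (Finset.single_le_sum (f := fun l => K k l) (fun l _ => hK k l) (Finset.mem_univ l)).trans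
      (Finset.single_le_sum (f := fun k => ∑ l, K k l)
        (fun k _ => Finset.sum_nonneg fun l _ => hK k l) (Finset.mem_univ k))
  have n2 : ‖(2 : ℂ)‖ = 2 := Complex.norm_two
  refine ⟨fun y => Matrix.of fun k l => (g k l y + star (g l k y)) / 2, ∑ k, ∑ l, K k l,
    Finset.sum_nonneg fun k _ => Finset.sum_nonneg fun l _ => hK k l, fun y => ?_,
    fun y k l => ?_, fun y y' k l => ?_⟩
  · refine Matrix.ext fun k l => ?_
    change star ((g l k y + star (g k l y)) / 2) = (g k l y + star (g l k y)) / 2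
    have e2 : star (2 : ℂ) = 2 := Complex.conj_ofNat 2
    rw [star_div₀, star_add, star_star, add_comm, e2]
  · change ‖(g k l y + star (g l k y)) / 2 - a y k l‖ ≤ ε
    have e0 : a y k l = star (a y l k) := by
      have := congrFun (congrFun (hh y).eq k) l
      rw [Matrix.conjTranspose_apply] at this
      exact this.symm
    have e : (g k l y + star (g l k y)) / 2 - a y k l =
        ((g k l y - a y k l) + star (g l k y - a y l k)) / 2 := by
      rw [star_sub, ← e0]; ring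
    rw [e, norm_div, n2, div_le_iff₀ two_pos]
    refine (norm_add_le _ _).trans ?_
    rw [norm_star]
    linarith [hg k l y, hg l k y]
  · change ‖(g k l y + star (g l k y)) / 2 - (g k l y' + star (g l k y')) / 2‖ ≤ _
    have e : (g k l y + star (g l k y)) / 2 - (g k l y' + star (g l k y')) / 2 =
        ((g k l y - g k l y') + star (g l k y - g l k y')) / 2 := by
      rw [star_sub]; ring
    rw [e, norm_div, n2, div_le_iff₀ two_pos]
    refine (norm_add_le _ _).trans ?_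
    rw [norm_star]
    have h1 := mul_le_mul_of_nonneg_right (hKs k l) (dist_nonneg (x := y) (y := y'))
    have h2 := mul_le_mul_of_nonneg_right (hKs l k) (dist_nonneg (x := y) (y := y'))
    linarith [lg k l y y', lg l k y y']

/-! ## Matrices -/

/-- a small hermitian matrix -/
theorem psd_small (M : Matrix J J ℂ) (hM : M.IsHermitian) {ε κ : ℝ}
    (h : ∀ k l, ‖M k l‖ ≤ ε) (hκ : (Fintype.card J : ℝ) * ε ≤ κ) :
    ((κ : ℂ) • (1 : Matrix J J ℂ) + M).PosSemidef := by
  rcases isEmpty_or_nonempty J with hJ | ⟨⟨j0⟩⟩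
  · have e : (κ : ℂ) • (1 : Matrix J J ℂ) + M = 0 := Subsingleton.elim _ _
    rw [e]
    exact Matrix.PosSemidef.zero
  have hε : 0 ≤ ε := (norm_nonneg _).trans (h j0 j0)
  have hκ0 : 0 ≤ κ := le_trans (by positivity) hκ
  have hherm : ((κ : ℂ) • (1 : Matrix J J ℂ) + M).IsHermitian := by
    have h1 : ((κ : ℂ) • (1 : Matrix J J ℂ)).PosSemidef :=
      Matrix.PosSemidef.one.smul (Complex.zero_le_real.2 hκ0)
    exact h1.isHermitian.add hM
  refine Matrix.PosSemidef.of_dotProduct_mulVec_nonneg hherm fun ξ => ?_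
  rw [Complex.nonneg_iff]
  constructor
  · rw [add_mulVec, smul_mulVec, one_mulVec, dotProduct_add, dotProduct_smul, Complex.add_re,
      smul_eq_mul, Complex.re_ofReal_mul]
    have e1 : (star ξ ⬝ᵥ ξ).re = ∑ k, ‖ξ k‖ ^ 2 := by
      rw [dotProduct, Complex.re_sum]
      refine Finset.sum_congr rfl fun k _ => ?_
      rw [Pi.star_apply, Complex.star_def, Complex.conj_mul']
      norm_cast
    have e2 : ‖star ξ ⬝ᵥ M *ᵥ ξ‖ ≤ ε * (∑ k, ‖ξ k‖) ^ 2 := by
      rw [dotProduct]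
      refine (norm_sum_le _ _).trans ?_
      have h1 : ∀ k, ‖(star ξ) k * (M *ᵥ ξ) k‖ ≤ ‖ξ k‖ * (ε * ∑ l, ‖ξ l‖) := by
        intro k
        rw [norm_mul, Pi.star_apply, norm_star]
        refine mul_le_mul_of_nonneg_left ?_ (norm_nonneg _)
        rw [mulVec, dotProduct, Finset.mul_sum]
        refine (norm_sum_le _ _).trans (Finset.sum_le_sum fun l _ => ?_)
        rw [norm_mul]
        exact mul_le_mul_of_nonneg_right (h k l) (norm_nonneg _)
      refine (Finset.sum_le_sum fun k _ => h1 k).trans (le_of_eq ?_)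
      rw [← Finset.sum_mul]; ring
    have e3 : (∑ k, ‖ξ k‖) ^ 2 ≤ Fintype.card J * ∑ k, ‖ξ k‖ ^ 2 := by
      have := sq_sum_le_card_mul_sum_sq (s := (Finset.univ : Finset J)) (f := fun k => ‖ξ k‖)
      rwa [Finset.card_univ] at this
    have e4 : -‖star ξ ⬝ᵥ M *ᵥ ξ‖ ≤ (star ξ ⬝ᵥ M *ᵥ ξ).re :=
      (abs_le.1 (Complex.abs_re_le_norm _)).1
    have e5 : 0 ≤ ∑ k, ‖ξ k‖ ^ 2 := Finset.sum_nonneg fun k _ => sq_nonneg _
    rw [e1]
    have e6 := mul_le_mul_of_nonneg_left e3 hε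
    have e7 := mul_le_mul_of_nonneg_right hκ e5
    nlinarith
  · have h1 := hherm.im_star_dotProduct_mulVec_self ξ
    exact h1.symm

/-- existence of positive parts -/
theorem exists_PP (X : Matrix J J ℂ) (hX : X.IsHermitian) : ∃ Y, IsPP Y X := by
  have hps : ∀ f : ℝ → ℝ, (∀ t, 0 ≤ f t) → (Pool.Agent.H378.MDPP.fc hX f).PosSemidef := by
    intro f hf
    unfold Pool.Agent.H378.MDPP.fc
    have h1 : (diagonal fun i => ((f (hX.eigenvalues i) : ℝ) : ℂ)).PosSemidef :=
      Matrix.PosSemidef.diagonal fun i => Complex.zero_le_real.2 (hf _)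
    exact h1.mul_mul_conjTranspose_same _
  have hsub : ∀ f g : ℝ → ℝ, Pool.Agent.H378.MDPP.fc hX f - Pool.Agent.H378.MDPP.fc hX g =
      Pool.Agent.H378.MDPP.fc hX (fun t => f t - g t) := by
    intro f g
    unfold Pool.Agent.H378.MDPP.fc
    rw [← Matrix.sub_mul, ← Matrix.mul_sub, diagonal_sub]
    congr 3
    funext i
    push_cast
    rfl
  have hid := Pool.Agent.H378.MDPP.fc_id hX
  have e : Pool.Agent.H378.MDPP.fc hX (fun t => max t 0) - X =
      Pool.Agent.H378.MDPP.fc hX (fun t => max t 0 - t) := by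
    rw [← hsub, hid]
  refine ⟨Pool.Agent.H378.MDPP.fc hX (fun t => max t 0), hps _ fun t => le_max_right _ _, ?_, ?_⟩
  · rw [e]
    exact hps _ fun t => sub_nonneg.2 (le_max_left _ _)
  · rw [e, Pool.Agent.H378.MDPP.fc_mul]
    have e2 : (fun t : ℝ => max t 0 * (max t 0 - t)) = fun _ => (0 : ℝ) := by
      funext t
      rcases le_total t 0 with h | h
      · rw [max_eq_right h, zero_mul]
      · rw [max_eq_left h, sub_self, mul_zero]
    rw [e2]
    unfold Pool.Agent.H378.MDPP.fc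
    have e3 : (diagonal fun _ : J => (((0 : ℝ)) : ℂ)) = (0 : Matrix J J ℂ) := by
      rw [Complex.ofReal_zero]
      exact diagonal_zero
    rw [e3, Matrix.mul_zero, Matrix.zero_mul]

/-- a continuous positive matrix function bounded from below -/
theorem spec_lower {d : ℕ} (s : C(Cb d, Matrix J J ℂ)) {ε : ℝ}
    (h : ∀ y, (s y - (ε : ℂ) • (1 : Matrix J J ℂ)).PosSemidef) (t : ℝ) (ht : t < ε) :
    IsUnit (s - (t : ℂ) • (1 : C(Cb d, Matrix J J ℂ))) := by
  rw [ContinuousMap.isUnit_iff_forall_isUnit]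
  intro y
  have h2 : ((((ε - t : ℝ)) : ℂ) • (1 : Matrix J J ℂ)).PosDef :=
    Matrix.PosDef.one.smul (by
      have : 0 < ε - t := sub_pos.2 ht
      exact_mod_cast this)
  have h3 := h2.add_posSemidef (h y)
  have h4 : (s - (t : ℂ) • (1 : C(Cb d, Matrix J J ℂ))) y =
      (((ε - t : ℝ)) : ℂ) • (1 : Matrix J J ℂ) + (s y - (ε : ℂ) • (1 : Matrix J J ℂ)) := by
    change s y - (t : ℂ) • (1 : Matrix J J ℂ) = _
    rw [Complex.ofReal_sub, sub_smul]
    abel
  rw [h4]
  exact h3.isUnit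

/-- normalisation in a C*-algebra -/
theorem normalise {B : Type} [CStarAlgebra B] (s P H W₀ A : B) {ε : ℝ} (hε : 0 < ε)
    (h : ∀ t : ℝ, t < ε → IsUnit (s - (t : ℂ) • (1 : B))) (hs : IsSelfAdjoint s)
    (hP : IsStarProjection P) (hH1 : P * H = H) (hH2 : H * P = H) (hS : s = H + (1 - P))
    (hW : W₀ * A * star W₀ = H) : ∃ W : B, W * A * star W = P := by
  have hsp : ∀ t ∈ spectrum ℝ s, ε ≤ t := by
    intro t ht
    by_contra hlt
    push Not at hlt
    refine ht ?_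
    have h5 := (h t hlt).neg
    rw [neg_sub] at h5
    have h6 : algebraMap ℝ B t = (t : ℂ) • (1 : B) := by
      rw [IsScalarTower.algebraMap_apply ℝ ℂ B, Algebra.algebraMap_eq_smul_one]
      rfl
    change IsUnit (algebraMap ℝ B t - s)
    rw [h6]
    exact h5
  have hcont : ContinuousOn (fun t : ℝ => (√t)⁻¹) (spectrum ℝ s) := by
    refine ContinuousOn.inv₀ Real.continuous_sqrt.continuousOn fun t ht => ?_
    exact (Real.sqrt_pos.2 (hε.trans_le (hsp t ht))).ne'
  have hcont2 : ContinuousOn (fun t : ℝ => (√t)⁻¹ * (√t)⁻¹) (spectrum ℝ s) := hcont.mul hcont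
  set g := cfc (fun t : ℝ => (√t)⁻¹) s with hg
  have hgg : g * g * s = 1 := by
    have e1 : g * g = cfc (fun t : ℝ => (√t)⁻¹ * (√t)⁻¹) s := (cfc_mul _ _ s hcont hcont).symm
    have e2 : g * g * s = cfc (fun t : ℝ => (√t)⁻¹ * (√t)⁻¹ * t) s := by
      rw [cfc_mul (fun t : ℝ => (√t)⁻¹ * (√t)⁻¹) (fun t : ℝ => t) s hcont2 continuousOn_id, ← e1,
        cfc_id' ℝ s]
    rw [e2]
    have e3 : cfc (fun t : ℝ => (√t)⁻¹ * (√t)⁻¹ * t) s = cfc (fun _ : ℝ => (1 : ℝ)) s := by
      refine cfc_congr fun t ht => ?_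
      have h1 := hε.trans_le (hsp t ht)
      have h2 : √t * √t = t := Real.mul_self_sqrt h1.le
      have h3 : √t ≠ 0 := (Real.sqrt_pos.2 h1).ne'
      change (√t)⁻¹ * (√t)⁻¹ * t = 1
      calc (√t)⁻¹ * (√t)⁻¹ * t = (√t)⁻¹ * (√t)⁻¹ * (√t * √t) := by rw [h2]
        _ = ((√t)⁻¹ * √t) * ((√t)⁻¹ * √t) := by ring
        _ = 1 := by rw [inv_mul_cancel₀ h3, mul_one]
    rw [e3, cfc_const_one ℝ s]
  have hgs : star g = g := (cfc_predicate (fun t : ℝ => (√t)⁻¹) s)
  have hcs : g * s = s * g := (Commute.cfc_real (Commute.refl s) _).eq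
  have hPs : s * P = P * s := by
    rw [hS, add_mul, mul_add, hH1, hH2, sub_mul, mul_sub, one_mul, mul_one]
  have hcP : g * P = P * g := (Commute.cfc_real (show Commute s P from hPs) _).eq
  refine ⟨g * W₀, ?_⟩
  have hH : H = P * s := by
    rw [hS, mul_add, hH1, mul_sub, mul_one, hP.isIdempotentElem.eq, sub_self, add_zero]
  calc g * W₀ * A * star (g * W₀) = g * (W₀ * A * star W₀) * g := by
        rw [star_mul, hgs]; simp only [mul_assoc]
    _ = g * (P * s) * g := by rw [hW, hH]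
    _ = P * (g * g * s) := by
        rw [← mul_assoc, hcP, mul_assoc P g s, mul_assoc P (g * s) g, mul_assoc g s g, ← hcs,
          mul_assoc g g s]
    _ = P := by rw [hgg, mul_one]

/-! ## The main statement -/

theorem entry_of_sum {M : Matrix J J ℂ} {b : ℝ} (hb : 0 ≤ b)
    (h : ∑ k, ∑ l, ‖M k l‖ ^ 2 ≤ b ^ 2) (k l : J) : ‖M k l‖ ≤ b := by
  have h1 : ‖M k l‖ ^ 2 ≤ ∑ k, ∑ l, ‖M k l‖ ^ 2 :=
    (Finset.single_le_sum (f := fun l => ‖M k l‖ ^ 2) (fun l _ => sq_nonneg _)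
      (Finset.mem_univ l)).trans
      (Finset.single_le_sum (f := fun k => ∑ l, ‖M k l‖ ^ 2)
        (fun k _ => Finset.sum_nonneg fun l _ => sq_nonneg _) (Finset.mem_univ k))
  exact abs_le_of_sq_le_sq' (h1.trans h) hb |>.2

/-- the Lipschitz positive part and the generic constant matrix -/
theorem generic {d : ℕ} (a : Cb d → Matrix J J ℂ) (ha : Continuous a)
    (hps : ∀ y, (a y).PosSemidef) (δ : ℝ) (k Δ : ℕ) (hδ : 0 < δ) (hd : d < 2 * Δ)
    (hq : ∀ y, ∃ q : Matrix J J ℂ, IsStarProjection q ∧ k + Δ ≤ q.rank ∧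
      (a y - (δ : ℂ) • q).PosSemidef)
    (p : Matrix J J ℂ) (hp : p.rank ≤ k) :
    ∃ (β : Cb d → Matrix J J ℂ) (c : Matrix J J ℂ), Continuous β ∧ (∀ y, (β y).PosSemidef) ∧
      (∀ y, (β y * a y * β y - β y * β y * β y).PosSemidef) ∧
      ∀ y (ξ : J → ℂ), β y *ᵥ (c *ᵥ (p *ᵥ ξ)) = 0 → p *ᵥ ξ = 0 := by
  set n : ℝ := (Fintype.card J : ℝ) with hn
  have hn0 : 0 ≤ n := Nat.cast_nonneg _
  set κ : ℝ := δ / 8 with hκ
  have hκ0 : 0 < κ := by positivity
  obtain ⟨a', K, hK, ha'h, ha'a, ha'l⟩ := mat_approx a ha (fun y => (hps y).isHermitian)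
    (ε := κ / (n + 1)) (by positivity)
  have hnε : n * (κ / (n + 1)) ≤ κ := by
    rw [mul_div_assoc', div_le_iff₀ (by positivity)]
    nlinarith
  have hup : ∀ y, ((κ : ℂ) • (1 : Matrix J J ℂ) + (a' y - a y)).PosSemidef := fun y =>
    psd_small _ ((ha'h y).sub (hps y).isHermitian) (ha'a y) hnε
  have hlo : ∀ y, ((κ : ℂ) • (1 : Matrix J J ℂ) + (a y - a' y)).PosSemidef := fun y =>
    psd_small _ ((hps y).isHermitian.sub (ha'h y)) (fun k l => by
      have := ha'a y k l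
      rw [← norm_neg] at this
      rw [Matrix.sub_apply]
      rwa [neg_sub] at this) hnε
  -- the positive parts
  have hX : ∀ y, (a' y - ((2 * κ : ℝ) : ℂ) • (1 : Matrix J J ℂ)).IsHermitian := by
    intro y
    refine (ha'h y).sub ?_
    have h1 : (((2 * κ : ℝ) : ℂ) • (1 : Matrix J J ℂ)).PosSemidef :=
      Matrix.PosSemidef.one.smul (Complex.zero_le_real.2 (by positivity))
    exact h1.isHermitian
  choose β hβ using fun y => exists_PP _ (hX y)
  obtain ⟨pp1, -, pp3⟩ := Pool.Agent.H378.MDPP.s_PP J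
  have hβl : ∀ y y' k l, ‖β y k l - β y' k l‖ ≤ n * K * dist y y' := by
    intro y y' k l
    have h1 := pp1 _ _ _ _ (hβ y) (hβ y')
    have hb : 0 ≤ n * K * dist y y' := by positivity
    refine entry_of_sum (M := β y - β y') hb ?_ k l
    refine h1.trans ?_
    have h2 : ∀ k l, ‖(a' y - ((2 * κ : ℝ) : ℂ) • (1 : Matrix J J ℂ)) k l -
        (a' y' - ((2 * κ : ℝ) : ℂ) • (1 : Matrix J J ℂ)) k l‖ ^ 2 ≤ (K * dist y y') ^ 2 := by
      intro k l
      rw [Matrix.sub_apply, Matrix.sub_apply, sub_sub_sub_cancel_right]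
      exact pow_le_pow_left₀ (norm_nonneg _) (ha'l y y' k l) 2
    refine (Finset.sum_le_sum fun k _ => Finset.sum_le_sum fun l _ => h2 k l).trans (le_of_eq ?_)
    rw [Finset.sum_const, Finset.sum_const, Finset.card_univ, nsmul_eq_mul, nsmul_eq_mul, ← hn]
    ring
  have hβc : Continuous β := by
    refine continuous_matrix fun k l => ?_
    exact (LipschitzWith.of_dist_le' (K := n * K) fun y y' => by
      rw [dist_eq_norm]; exact hβl y y' k l).continuous
  obtain ⟨Mβ, hMβ⟩ := isCompact_univ.exists_bound_of_continuousOn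
    (f := fun y : Cb d => (fun k l => β y k l : J → J → ℂ)) (by
      refine Continuous.continuousOn ?_
      exact continuous_pi fun k => continuous_pi fun l => hβc.matrix_elem k l)
  have hMβ' : ∀ y k l, ‖β y k l‖ ≤ Mβ := fun y k l =>
    (norm_le_pi_norm (fun l => β y k l) l).trans
      ((norm_le_pi_norm (fun k l => β y k l) k).trans (hMβ y trivial))
  -- the covering
  obtain ⟨C₀, hC₀, hcov⟩ := Pool.Agent.H410.MDCOV.s_COV (Cb d) (Fin d) (fun i y => (y i : ℝ)) d
    Set.univ (fun i y => ⟨(y i).2.1, (y i).2.2⟩) (fun y _ => by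
      refine (Set.ncard_le_ncard (Set.subset_univ _)).trans ?_
      rw [Set.ncard_univ, Nat.card_eq_fintype_card, Fintype.card_fin])
  set Kβ : ℝ := n * K + 1 with hKβ
  have hKβ1 : 1 ≤ Kβ := by
    have : 0 ≤ n * K := by positivity
    linarith
  set Mp : ℝ := ∑ k, ∑ l, ‖p k l‖ with hMp
  have hMp0 : 0 ≤ Mp := Finset.sum_nonneg fun k _ => Finset.sum_nonneg fun l _ => norm_nonneg _
  have hMp' : ∀ k l, ‖p k l‖ ≤ Mp := fun k l =>
    (Finset.single_le_sum (f := fun l => ‖p k l‖) (fun l _ => norm_nonneg _)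
      (Finset.mem_univ l)).trans
      (Finset.single_le_sum (f := fun k => ∑ l, ‖p k l‖)
        (fun k _ => Finset.sum_nonneg fun l _ => norm_nonneg _) (Finset.mem_univ k))
  have hδ2 : 0 < 2 / δ := by positivity
  have hC₀K : 0 ≤ C₀ * Kβ ^ d := by positivity
  set C : ℝ := 1 + Mp + |Mβ| + 2 / δ + C₀ * Kβ ^ d with hC
  have hMβa := le_abs_self Mβ
  have hMβn := abs_nonneg Mβ
  obtain ⟨c, hc⟩ := Pool.Agent.H30.MD.s_GEN J (Cb d) (fun _ => p) β (fun _ => 0) (fun _ => 1) d Δ C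
    hd (by positivity) (fun _ => ⟨one_pos, by linarith⟩)
    (fun y k l => ⟨by linarith [hMp' k l], by linarith [hMβ' y k l], by
      rw [Matrix.zero_apply, norm_zero]; positivity⟩)
    (fun ρ hρ hρ1 => by
      have hKβ0 : 0 < Kβ := zero_lt_one.trans_le hKβ1
      obtain ⟨F, -, hF, hFc⟩ := hcov (ρ / Kβ) (by positivity) (by
        rw [div_le_one hKβ0]; linarith)
      refine ⟨F, ?_, fun y => ?_⟩
      · refine hF.trans ?_
        have e1 : C₀ * (1 / (ρ / Kβ)) ^ d = C₀ * Kβ ^ d * (1 / ρ) ^ d := by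
          rw [one_div_div, div_eq_mul_one_div, mul_pow, mul_assoc]
        rw [e1]
        refine mul_le_mul_of_nonneg_right (by linarith) (by positivity)
      · obtain ⟨y', hy', hyy⟩ := hFc y trivial
        refine ⟨y', hy', by rw [sub_self, abs_zero]; exact hρ.le, fun k l => ?_⟩
        have hdist : dist y y' ≤ ρ / Kβ := by
          rw [dist_pi_le_iff (by positivity)]
          exact hyy
        refine ⟨by rw [sub_self, norm_zero]; exact hρ.le, ?_, by
          rw [sub_self, norm_zero]; exact hρ.le⟩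
        refine (hβl y y' k l).trans ?_
        have h1 : n * K * dist y y' ≤ Kβ * (ρ / Kβ) :=
          mul_le_mul (by linarith) hdist dist_nonneg hKβ0.le
        rwa [mul_div_cancel₀ _ hKβ0.ne'] at h1)
    (fun y => by
      obtain ⟨q, hq1, hq2, hq3⟩ := hq y
      obtain ⟨Q, hQ1, hQ2, hQ3⟩ := pp3 (a' y) (β y) q δ (2 * κ) (by positivity) (by
        rw [hκ]; linarith) (ha'h y) hq1 (by
          have h1 := (hup y).add hq3
          have h2 : (((κ : ℝ) : ℂ) • (1 : Matrix J J ℂ)).PosSemidef :=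
            Matrix.PosSemidef.one.smul (Complex.zero_le_real.2 hκ0.le)
          have h3 := h1.add h2
          have e : (κ : ℂ) • (1 : Matrix J J ℂ) + (a' y - a y) + (a y - (δ : ℂ) • q) +
              (κ : ℂ) • (1 : Matrix J J ℂ) =
              a' y + ((2 * κ : ℝ) : ℂ) • (1 : Matrix J J ℂ) - (δ : ℂ) • q := by
            rw [Complex.ofReal_mul, Complex.ofReal_ofNat, two_mul, add_smul]
            abel
          rwa [e] at h3) (hβ y)
      refine ⟨Q, fun k l => (hQ1 k l).trans (by linarith), hQ2, ?_⟩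
      exact (Nat.add_le_add_right hp Δ).trans (hq2.trans hQ3))
  refine ⟨β, c, hβc, fun y => (hβ y).pos, fun y => ?_, fun y ξ h => ?_⟩
  · have hβh : (β y)ᴴ = β y := (hβ y).pos.isHermitian.eq
    have h1 : β y * β y = β y * (a' y - ((2 * κ : ℝ) : ℂ) • (1 : Matrix J J ℂ)) := by
      have := (hβ y).mul
      rwa [Matrix.mul_sub, sub_eq_zero] at this
    have h2 : (a y - (a' y - ((2 * κ : ℝ) : ℂ) • (1 : Matrix J J ℂ))).PosSemidef := by
      have h3 : (((κ : ℝ) : ℂ) • (1 : Matrix J J ℂ)).PosSemidef :=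
        Matrix.PosSemidef.one.smul (Complex.zero_le_real.2 hκ0.le)
      have h4 := (hlo y).add h3
      have e : (κ : ℂ) • (1 : Matrix J J ℂ) + (a y - a' y) + (κ : ℂ) • (1 : Matrix J J ℂ) =
          a y - (a' y - ((2 * κ : ℝ) : ℂ) • (1 : Matrix J J ℂ)) := by
        rw [Complex.ofReal_mul, Complex.ofReal_ofNat, two_mul, add_smul]
        abel
      rwa [e] at h4
    have h5 := h2.conjTranspose_mul_mul_same (β y)
    rw [hβh] at h5
    have e : β y * (a y - (a' y - ((2 * κ : ℝ) : ℂ) • (1 : Matrix J J ℂ))) * β y =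
        β y * a y * β y - β y * β y * β y := by
      rw [h1, Matrix.mul_sub, Matrix.sub_mul]
    rwa [e] at h5
  · refine hc y ξ ?_
    rw [Complex.ofReal_one, one_smul, add_zero]
    exact h

theorem s_CMP : Pool.Agent.H252.EL.S_CMP := by
  intro d J _ _ a ha hps δ k Δ hδ hd hq p hP hp
  obtain ⟨β, c, hβc, hβp, hβa, hinj⟩ := generic a ha hps δ k Δ hδ hd hq p hp
  have hpp : p * p = p := hP.isIdempotentElem.eq
  have hps' : pᴴ = p := hP.isSelfAdjoint
  have hβh : ∀ y, (β y)ᴴ = β y := fun y => (hβp y).isHermitian.eq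
  have hbab : ∀ y, (β y * a y * β y).PosSemidef := fun y => by
    have h1 := (hps y).conjTranspose_mul_mul_same (β y)
    rwa [hβh] at h1
  have hbbb : ∀ y, (β y * β y * β y).PosSemidef := fun y => by
    have h1 := (hβp y).conjTranspose_mul_mul_same (β y)
    rwa [hβh] at h1
  have hcont : Continuous fun y => β y * a y * β y :=
    (hβc.matrix_mul ha).matrix_mul hβc
  obtain ⟨C, hC, hCP⟩ := Pool.Agent.H860.MD.s_CPT (Cb d) J (fun _ => p)
    (fun y => β y * a y * β y) (fun _ => c) Set.univ isCompact_univ continuous_const hcont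
    continuous_const (fun y _ => hps') (fun y _ => hbab y) (fun y _ ξ h => by
      refine hinj y ξ ?_
      set ζ := c *ᵥ (p *ᵥ ξ) with hζ
      have h1 : star ζ ⬝ᵥ (β y * β y * β y) *ᵥ ζ = 0 := by
        have h2 := (hβa y).dotProduct_mulVec_nonneg ζ
        have h3 := (hbbb y).dotProduct_mulVec_nonneg ζ
        rw [sub_mulVec, dotProduct_sub, h, dotProduct_zero, zero_sub] at h2
        exact le_antisymm (neg_nonneg.1 h2) h3
      have h4 := ((hbbb y).dotProduct_mulVec_zero_iff ζ).1 h1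
      have h5 : ((β y)ᴴ * β y) *ᵥ (β y *ᵥ ζ) = 0 := by
        rw [hβh, mulVec_mulVec]; exact h4
      have h6 := (conjTranspose_mul_self_mulVec_eq_zero _ _).1 h5
      have h7 : ((β y)ᴴ * β y) *ᵥ ζ = 0 := by
        rw [hβh, ← mulVec_mulVec]; exact h6
      exact (conjTranspose_mul_self_mulVec_eq_zero _ _).1 h7) (1 / 2) (by norm_num)
  set ε : ℝ := 1 / (2 * (C + 1)) with hε
  have hε0 : 0 < ε := by positivity
  have hε1 : ε ≤ 1 := by
    rw [hε, div_le_one (by positivity)]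
    linarith
  -- the elements of the algebra
  set h' : Cb d → Matrix J J ℂ := fun y => p * cᴴ * (β y * a y * β y) * c * p with hh'
  have hh'c : Continuous h' :=
    (((continuous_const.matrix_mul hcont).matrix_mul continuous_const).matrix_mul continuous_const)
  have hph : ∀ y, p * h' y = h' y := fun y => by
    simp only [hh', ← Matrix.mul_assoc, hpp]
  have hhp : ∀ y, h' y * p = h' y := fun y => by
    simp only [hh', Matrix.mul_assoc, hpp]
  have hh'p : ∀ y, (h' y).PosSemidef := fun y => by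
    have h1 := (hbab y).conjTranspose_mul_mul_same (c * p)
    rw [conjTranspose_mul, hps'] at h1
    have e : p * cᴴ * (β y * a y * β y) * (c * p) = h' y := by
      simp only [hh', Matrix.mul_assoc]
    rwa [e] at h1
  have h1p : (1 - p).PosSemidef := by
    have e : (1 - p)ᴴ * (1 - p) = 1 - p := by
      rw [conjTranspose_sub, conjTranspose_one, hps', Matrix.sub_mul, Matrix.mul_sub,
        Matrix.mul_sub, hpp, Matrix.one_mul, Matrix.mul_one, Matrix.one_mul, sub_self, sub_zero]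
    rw [← e]
    exact posSemidef_conjTranspose_mul_self _
  have hlow : ∀ y, (h' y + (1 - p) - (ε : ℂ) • (1 : Matrix J J ℂ)).PosSemidef := by
    intro y
    have h1 := (hCP y trivial).conjTranspose_mul_mul_same p
    rw [hps'] at h1
    have e1 : p * ((((1 / 2 : ℝ)) : ℂ) • (1 : Matrix J J ℂ) + (C : ℂ) • (p * cᴴ *
        (β y * a y * β y) * c * p) - p * p) * p = (C : ℂ) • h' y - ((1 / 2 : ℝ) : ℂ) • p := by
      have e2 : p * cᴴ * (β y * a y * β y) * c * p = h' y := rfl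
      rw [e2, hpp, Matrix.mul_sub, Matrix.mul_add, Matrix.sub_mul, Matrix.add_mul,
        Matrix.mul_smul, Matrix.mul_smul, Matrix.smul_mul, Matrix.smul_mul, Matrix.mul_one, hpp,
        hpp, hph, hhp]
      have e3 : (p : Matrix J J ℂ) = ((1 / 2 : ℝ) : ℂ) • p + ((1 / 2 : ℝ) : ℂ) • p := by
        rw [← add_smul, ← Complex.ofReal_add]
        norm_num
      nth_rewrite 2 [e3]
      abel
    rw [e1] at h1
    have h2 := h1.add (hh'p y)
    have h3 : (((1 / (C + 1) : ℝ) : ℂ) • ((C : ℂ) • h' y - ((1 / 2 : ℝ) : ℂ) • p + h' y)).PosSemidef :=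
      h2.smul (Complex.zero_le_real.2 (by positivity))
    have h4 : (((1 - ε : ℝ) : ℂ) • (1 - p)).PosSemidef :=
      h1p.smul (Complex.zero_le_real.2 (by linarith))
    have h5 := h3.add h4
    have e4 : ((1 / (C + 1) : ℝ) : ℂ) • ((C : ℂ) • h' y - ((1 / 2 : ℝ) : ℂ) • p + h' y) +
        ((1 - ε : ℝ) : ℂ) • (1 - p) = h' y + (1 - p) - (ε : ℂ) • (1 : Matrix J J ℂ) := by
      have hC1 : (C : ℝ) + 1 ≠ 0 := by positivity
      have u1 : ((1 / (C + 1) : ℝ) : ℂ) * (C : ℂ) + ((1 / (C + 1) : ℝ) : ℂ) = 1 := by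
        rw [← Complex.ofReal_mul, ← Complex.ofReal_add, ← Complex.ofReal_one]
        congr 1
        field_simp
      have u2 : (ε : ℂ) = ((1 / (C + 1) : ℝ) : ℂ) * ((1 / 2 : ℝ) : ℂ) := by
        rw [← Complex.ofReal_mul]
        congr 1
        rw [hε]
        field_simp
      ext i j
      simp only [Matrix.add_apply, Matrix.sub_apply, Matrix.smul_apply, smul_eq_mul]
      rw [Complex.ofReal_sub, Complex.ofReal_one]
      linear_combination (h' y i j) * u1 + (p i j) * u2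
    rwa [e4] at h5
  let P₁ : C(Cb d, Matrix J J ℂ) := ⟨fun _ => p, continuous_const⟩
  let H₁ : C(Cb d, Matrix J J ℂ) := ⟨h', hh'c⟩
  let W₁ : C(Cb d, Matrix J J ℂ) := ⟨fun y => p * cᴴ * β y, continuous_const.matrix_mul hβc⟩
  let A₁ : C(Cb d, Matrix J J ℂ) := ⟨a, ha⟩
  have q1 : IsSelfAdjoint (H₁ + (1 - P₁)) := by
    refine ContinuousMap.ext fun y => ?_
    exact ((hh'p y).isHermitian.add h1p.isHermitian).eq
  have q2 : IsStarProjection P₁ :=
    ⟨ContinuousMap.ext fun _ => hpp, ContinuousMap.ext fun _ => hps'⟩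
  have q3 : P₁ * H₁ = H₁ := ContinuousMap.ext hph
  have q4 : H₁ * P₁ = H₁ := ContinuousMap.ext hhp
  have q5 : W₁ * A₁ * star W₁ = H₁ := by
    refine ContinuousMap.ext fun y => ?_
    change p * cᴴ * β y * a y * (p * cᴴ * β y)ᴴ = h' y
    rw [conjTranspose_mul, conjTranspose_mul, conjTranspose_conjTranspose, hβh, hps']
    simp only [hh', Matrix.mul_assoc]
  obtain ⟨W, hW⟩ := normalise (H₁ + (1 - P₁)) P₁ H₁ W₁ A₁ hε0 (spec_lower _ hlow)
    q1 q2 q3 q4 rfl q5
  exact ⟨W, W.continuous, fun y => DFunLike.congr_fun hW y⟩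

end Pool.Agent.H597.ELCMP
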