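import Pool.Agent.H252.MD.Iface

/-!
# LIPW: Lipschitz dependence of the window compressions on the data
-/

set_option autoImplicit false

namespace Pool.Agent.H597.MDLIPW

open Filter Topology Matrix
open Pool.Agent.H107ZS Pool.Agent.H327R4.Pure
open Pool.Agent.H252.MD
open scoped CStarAlgebra ComplexOrder

noncomputable section

theorem zt_add (i j : ℤ) : zt (i + j) = zt i * zt j := rfl

theorem zt_zero : zt 0 = 1 := rfl

theorem zt_smul_smul {X : Type} [TopologicalSpace X] [MulAction Zm X] (i j : ℤ) (x : X) :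
    zt i • zt j • x = zt (i + j) • x := by
  rw [← mul_smul, ← zt_add]

section

variable {X : Type} [TopologicalSpace X] [CompactSpace X] [MulAction Zm X]
  [ContinuousConstSMul Zm X]

theorem gam_apply (φ : C(X, ℝ)) (R : ℕ) (x : X) :
    gam φ R x = 1 - ∑ i ∈ Finset.Icc (-(R : ℤ)) R, φ (zt i • x) := by
  unfold gam
  rw [ContinuousMap.sub_apply, ContinuousMap.one_apply, ContinuousMap.sum_apply]
  rfl

/-- the cut-down function is Lipschitz -/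
theorem gam_lip (φ : C(X, ℝ)) (R : ℕ) (x y : X) (ρ : ℝ)
    (h : ∀ i : ℤ, -(R : ℤ) ≤ i → i ≤ R → |φ (zt i • x) - φ (zt i • y)| ≤ ρ) :
    |gam φ R x - gam φ R y| ≤ (2 * R + 1) * ρ := by
  rw [gam_apply, gam_apply]
  have e : (1 - ∑ i ∈ Finset.Icc (-(R : ℤ)) R, φ (zt i • x)) -
      (1 - ∑ i ∈ Finset.Icc (-(R : ℤ)) R, φ (zt i • y)) =
      - ∑ i ∈ Finset.Icc (-(R : ℤ)) R, (φ (zt i • x) - φ (zt i • y)) := by
    rw [Finset.sum_sub_distrib]; ring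
  rw [e, abs_neg]
  calc |∑ i ∈ Finset.Icc (-(R : ℤ)) R, (φ (zt i • x) - φ (zt i • y))|
      ≤ ∑ i ∈ Finset.Icc (-(R : ℤ)) R, |φ (zt i • x) - φ (zt i • y)| :=
        Finset.abs_sum_le_sum_abs _ _
    _ ≤ ∑ _i ∈ Finset.Icc (-(R : ℤ)) R, ρ :=
        Finset.sum_le_sum fun i hi => h i (Finset.mem_Icc.1 hi).1 (Finset.mem_Icc.1 hi).2
    _ = (2 * R + 1) * ρ := by
        rw [Finset.sum_const, Int.card_Icc, nsmul_eq_mul]
        have : (((R : ℤ) + 1 - -(R : ℤ)).toNat : ℝ) = 2 * R + 1 := by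
          have h1 : ((R : ℤ) + 1 - -(R : ℤ)).toNat = 2 * R + 1 := by omega
          rw [h1]; push_cast; ring
        rw [this]

end

/-- product of three bounded Lipschitz quantities -/
theorem prod_lip (a a' b b' : ℝ) (w w' : ℂ) (M A C ρ : ℝ) (ha : 0 ≤ a ∧ a ≤ 1)
    (ha' : 0 ≤ a' ∧ a' ≤ 1) (hb : 0 ≤ b ∧ b ≤ 1) (hb' : 0 ≤ b' ∧ b' ≤ 1)
    (hw : ‖w‖ ≤ M) (hw' : ‖w'‖ ≤ M) (h1 : |a - a'| ≤ A * ρ) (h2 : |b - b'| ≤ A * ρ)
    (h3 : ‖w - w'‖ ≤ C * ρ) :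
    ‖(a : ℂ) * w * (b : ℂ) - (a' : ℂ) * w' * (b' : ℂ)‖ ≤ (C + 2 * A * M) * ρ := by
  have e : (a : ℂ) * w * (b : ℂ) - (a' : ℂ) * w' * (b' : ℂ) =
      ((a - a' : ℝ) : ℂ) * w * (b : ℂ) + (a' : ℂ) * (w - w') * (b : ℂ) +
        (a' : ℂ) * w' * ((b - b' : ℝ) : ℂ) := by
    push_cast; ring
  have hM : 0 ≤ M := (norm_nonneg _).trans hw
  have hA : 0 ≤ A * ρ := (abs_nonneg _).trans h1
  have hC : 0 ≤ C * ρ := (norm_nonneg _).trans h3
  have n1 : ‖((a - a' : ℝ) : ℂ) * w * (b : ℂ)‖ ≤ A * ρ * M := by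
    rw [norm_mul, norm_mul, Complex.norm_real, Complex.norm_real, Real.norm_eq_abs,
      Real.norm_eq_abs, abs_of_nonneg hb.1]
    calc |a - a'| * ‖w‖ * b ≤ |a - a'| * ‖w‖ * 1 :=
          mul_le_mul_of_nonneg_left hb.2 (mul_nonneg (abs_nonneg _) (norm_nonneg _))
      _ = |a - a'| * ‖w‖ := mul_one _
      _ ≤ A * ρ * M := mul_le_mul h1 hw (norm_nonneg _) hA
  have n2 : ‖(a' : ℂ) * (w - w') * (b : ℂ)‖ ≤ C * ρ := by
    rw [norm_mul, norm_mul, Complex.norm_real, Complex.norm_real, Real.norm_eq_abs,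
      Real.norm_eq_abs, abs_of_nonneg hb.1, abs_of_nonneg ha'.1]
    calc a' * ‖w - w'‖ * b ≤ a' * ‖w - w'‖ * 1 :=
          mul_le_mul_of_nonneg_left hb.2 (mul_nonneg ha'.1 (norm_nonneg _))
      _ = a' * ‖w - w'‖ := mul_one _
      _ ≤ 1 * ‖w - w'‖ := mul_le_mul_of_nonneg_right ha'.2 (norm_nonneg _)
      _ = ‖w - w'‖ := one_mul _
      _ ≤ C * ρ := h3
  have n3 : ‖(a' : ℂ) * w' * ((b - b' : ℝ) : ℂ)‖ ≤ M * (A * ρ) := by
    rw [norm_mul, norm_mul, Complex.norm_real, Complex.norm_real, Real.norm_eq_abs,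
      Real.norm_eq_abs, abs_of_nonneg ha'.1]
    calc a' * ‖w'‖ * |b - b'| ≤ 1 * ‖w'‖ * |b - b'| :=
          mul_le_mul_of_nonneg_right (mul_le_mul_of_nonneg_right ha'.2 (norm_nonneg _))
            (abs_nonneg _)
      _ = ‖w'‖ * |b - b'| := by rw [one_mul]
      _ ≤ M * (A * ρ) := mul_le_mul hw' h2 (abs_nonneg _) hM
  rw [e]
  refine (norm_add_le _ _).trans ?_
  have := norm_add_le (((a - a' : ℝ) : ℂ) * w * (b : ℂ)) ((a' : ℂ) * (w - w') * (b : ℂ))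
  nlinarith

/-- **LIPW** -/
theorem s_LIPW : Pool.Agent.H252.MD.S_LIPW := by
  intro hSPL hSPC hPPW hPP X _ _ _ _ B _ n ι u e E hE J q n₀ C a hC ha hq φ N L R hφ hR hprp ε Λ hε
  obtain ⟨spc1, spc2⟩ := hSPC X B n ι u e E hE
  obtain ⟨hγ01, hγs⟩ := spc2 φ N L R hφ hR
  obtain ⟨-, -, -, -, -, -, spl7, -, -, -, spl11, -, -, -⟩ := hSPL X B n ι u e E hE
  set T : B := ι (toC (gam φ R)) * a * ι (toC (gam φ R)) with hT
  have hγsa : star (toC (gam φ R)) = toC (gam φ R) := by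
    ext x
    show star ((gam φ R x : ℝ) : ℂ) = ((gam φ R x : ℝ) : ℂ)
    exact Complex.conj_ofReal _
  have hTsa : IsSelfAdjoint T := by
    rw [hT, IsSelfAdjoint, star_mul, star_mul, ← map_star, hγsa, ha.star_eq, mul_assoc]
  set C₁ : ℝ := C + 2 * (2 * R + 1) * ‖a‖ with hC₁
  have hC₁0 : 0 ≤ C₁ := by positivity
  refine ⟨(n * Λ) * C₁, by positivity, ?_⟩
  intro x y ρ hρ hx hxΛ hy hyΛ hnear hφn k l
  -- the entries of the compression of `a`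
  have hentry : ∀ (z : X) (k l : Fin n) (s t : Fin Λ), W u E a Λ z (k, s) (l, t) =
      E k l (a * (u (zt (((t : ℕ) : ℤ) - ((s : ℕ) : ℤ))) : B)) (zt ((s : ℕ) : ℤ) • z) := by
    intro z k l s t
    have h7 := spl7 z a ((s : ℕ) : ℤ) 0 (((t : ℕ) : ℤ) - ((s : ℕ) : ℤ)) k l
    rw [add_zero, add_sub_cancel, zt_zero, map_one] at h7
    rw [show ((1 : unitary B) : B) = 1 from rfl, star_one, one_mul] at h7
    exact h7
  have hWa : ∀ p q : Fin n × Fin Λ, ‖W u E a Λ x p q - W u E a Λ y p q‖ ≤ C * ρ := by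
    rintro ⟨k, s⟩ ⟨l, t⟩
    rw [hentry, hentry]
    refine hq k l _ _ _ ρ hρ ?_
    intro j i hi1 hi2
    rw [zt_smul_smul, zt_smul_smul]
    have hs : ((s : ℕ) : ℤ) < Λ := by exact_mod_cast s.2
    exact hnear j _ (by omega) (by omega)
  have hγl : ∀ s : Fin Λ, |gam φ R (zt ((s : ℕ) : ℤ) • x) - gam φ R (zt ((s : ℕ) : ℤ) • y)| ≤
      (2 * R + 1) * ρ := by
    intro s
    have hs : ((s : ℕ) : ℤ) < Λ := by exact_mod_cast s.2
    refine gam_lip φ R _ _ ρ ?_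
    intro i hi1 hi2
    rw [zt_smul_smul, zt_smul_smul]
    exact hφn _ (by omega) (by omega)
  have hWT : ∀ p q : Fin n × Fin Λ, ‖W u E T Λ x p q - W u E T Λ y p q‖ ≤ C₁ * ρ := by
    intro p q
    rw [hT, spc1, spc1]
    exact prod_lip _ _ _ _ _ _ ‖a‖ (2 * R + 1) C ρ (hγ01 _) (hγ01 _) (hγ01 _) (hγ01 _)
      (spl11 _ _ _ _ _) (spl11 _ _ _ _ _) (hγl _) (hγl _) (hWa _ _)
  -- positive parts
  have hpx := (hPPW hSPL X B n ι u e E hE T ε Λ x hε hTsa (hγs a hprp x hx)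
    (hγs a hprp _ hxΛ)).1
  have hpy := (hPPW hSPL X B n ι u e E hE T ε Λ y hε hTsa (hγs a hprp y hy)
    (hγs a hprp _ hyΛ)).1
  have hsq := (hPP (Fin n × Fin Λ)).1 _ _ _ _ hpx hpy
  have hle : ‖W u E (cut ε T) Λ x k l - W u E (cut ε T) Λ y k l‖ ^ 2 ≤
      ((n * Λ) * C₁ * ρ) ^ 2 := by
    calc ‖W u E (cut ε T) Λ x k l - W u E (cut ε T) Λ y k l‖ ^ 2
        ≤ ∑ l, ‖W u E (cut ε T) Λ x k l - W u E (cut ε T) Λ y k l‖ ^ 2 :=
          Finset.single_le_sum (f := fun l => ‖W u E (cut ε T) Λ x k l -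
            W u E (cut ε T) Λ y k l‖ ^ 2) (fun _ _ => sq_nonneg _) (Finset.mem_univ l)
      _ ≤ ∑ k, ∑ l, ‖W u E (cut ε T) Λ x k l - W u E (cut ε T) Λ y k l‖ ^ 2 :=
          Finset.single_le_sum (f := fun k => ∑ l, ‖W u E (cut ε T) Λ x k l -
            W u E (cut ε T) Λ y k l‖ ^ 2)
            (fun _ _ => Finset.sum_nonneg fun _ _ => sq_nonneg _) (Finset.mem_univ k)
      _ ≤ _ := hsq
      _ ≤ ∑ _k : Fin n × Fin Λ, ∑ _l : Fin n × Fin Λ, (C₁ * ρ) ^ 2 := by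
          refine Finset.sum_le_sum fun k _ => Finset.sum_le_sum fun l _ => ?_
          have h1 : (W u E T Λ x - (ε : ℂ) • (1 : Matrix (Fin n × Fin Λ) (Fin n × Fin Λ) ℂ)) k l -
              (W u E T Λ y - (ε : ℂ) • (1 : Matrix (Fin n × Fin Λ) (Fin n × Fin Λ) ℂ)) k l =
              W u E T Λ x k l - W u E T Λ y k l := by
            rw [Matrix.sub_apply, Matrix.sub_apply]; ring
          rw [h1]
          exact pow_le_pow_left₀ (norm_nonneg _) (hWT k l) 2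
      _ = ((n * Λ) * C₁ * ρ) ^ 2 := by
          rw [Finset.sum_const, Finset.sum_const, Finset.card_univ, Fintype.card_prod,
            Fintype.card_fin, Fintype.card_fin, nsmul_eq_mul, nsmul_eq_mul]
          push_cast
          ring
  exact abs_le_of_sq_le_sq' hle (by positivity) |>.2

end

end Pool.Agent.H597.MDLIPW
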