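import Pool.Agent.H867.FT.Gen

/-!
# CUB: Delone–Faddeev normal form and the codifferent of a cubic algebra
-/

set_option autoImplicit false

namespace Pool.Agent.H597.FT867CUB

open Pool.Agent.H867.FT

section Euler

variable {L K : Type} [Field L] [Field K] [Algebra L K]

theorem rep (B : Module.Basis (Fin 3) L K) (x : K) (h0 : B 0 = 1) (h1 : B 1 = x)
    (h2 : B 2 = x ^ 2) (l₀ l₁ l₂ : L) :
    (B.repr (algebraMap L K l₀ + algebraMap L K l₁ * x + algebraMap L K l₂ * x ^ 2) 0 = l₀) ∧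
    (B.repr (algebraMap L K l₀ + algebraMap L K l₁ * x + algebraMap L K l₂ * x ^ 2) 1 = l₁) ∧
    (B.repr (algebraMap L K l₀ + algebraMap L K l₁ * x + algebraMap L K l₂ * x ^ 2) 2 = l₂) := by
  have e : algebraMap L K l₀ + algebraMap L K l₁ * x + algebraMap L K l₂ * x ^ 2 =
      ∑ i, (![l₀, l₁, l₂] : Fin 3 → L) i • B i := by
    rw [Fin.sum_univ_three, h0, h1, h2]
    simp only [Matrix.cons_val_zero, Matrix.cons_val_one, Matrix.cons_val_two, Matrix.head_cons,
      Matrix.tail_cons, Algebra.smul_def, mul_one]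
  rw [e, B.repr_sum_self]
  exact ⟨rfl, rfl, rfl⟩

theorem repT (B : Module.Basis (Fin 3) L K) (x : K) (h0 : B 0 = 1) (h1 : B 1 = x)
    (h2 : B 2 = x ^ 2) (p q r : L)
    (hx : x ^ 3 = algebraMap L K p * x ^ 2 + algebraMap L K q * x + algebraMap L K r) (z : K) :
    Algebra.trace L K z =
      B.repr ((3 * x ^ 2 - 2 * algebraMap L K p * x - algebraMap L K q) * z) 2 := by
  classical
  have hx4 : x ^ 4 = algebraMap L K (p * r) + algebraMap L K (p * q + r) * x +
      algebraMap L K (p ^ 2 + q) * x ^ 2 := by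
    simp only [map_add, map_mul, map_pow]
    linear_combination (x + algebraMap L K p) * hx
  have R := rep B x h0 h1 h2
  have tr : ∀ y : K, Algebra.trace L K y = B.repr (y * 1) 0 + B.repr (y * x) 1 +
      B.repr (y * x ^ 2) 2 := by
    intro y
    rw [Algebra.trace_eq_matrix_trace B y, Matrix.trace, Fin.sum_univ_three]
    simp only [Matrix.diag_apply, Algebra.leftMulMatrix_eq_repr_mul]
    rw [h0, h1, h2]
  have e1 : Algebra.trace L K 1 = 3 := by
    rw [tr]
    have a1 := (R 1 0 0).1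
    have a2 := (R 0 1 0).2.1
    have a3 := (R 0 0 1).2.2
    simp only [map_one, map_zero, zero_mul, add_zero, one_mul, zero_add] at a1 a2 a3
    rw [mul_one, one_mul, one_mul, a1, a2, a3]
    norm_num
  have e2 : Algebra.trace L K x = p := by
    rw [tr]
    have a1 := (R 0 1 0).1
    have a2 := (R 0 0 1).2.1
    have a3 := (R r q p).2.2
    simp only [map_one, map_zero, zero_mul, add_zero, one_mul, zero_add] at a1 a2 a3
    have f2 : x * x = x ^ 2 := by ring
    have f3 : x * x ^ 2 = algebraMap L K r + algebraMap L K q * x + algebraMap L K p * x ^ 2 := by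
      linear_combination hx
    rw [mul_one, f2, f3, a1, a2, a3]
    ring
  have e3 : Algebra.trace L K (x ^ 2) = p ^ 2 + 2 * q := by
    rw [tr]
    have a1 := (R 0 0 1).1
    have a2 := (R r q p).2.1
    have a3 := (R (p * r) (p * q + r) (p ^ 2 + q)).2.2
    simp only [map_one, map_zero, zero_mul, add_zero, one_mul, zero_add] at a1
    have f2 : x ^ 2 * x = algebraMap L K r + algebraMap L K q * x + algebraMap L K p * x ^ 2 := by
      linear_combination hx
    have f3 : x ^ 2 * x ^ 2 = algebraMap L K (p * r) + algebraMap L K (p * q + r) * x +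
      algebraMap L K (p ^ 2 + q) * x ^ 2 := by
      rw [← hx4]; ring
    rw [mul_one, f2, f3, a1, a2, a3]
    ring
  -- the two linear forms
  have key : Algebra.trace L K = (B.coord 2) ∘ₗ
      (LinearMap.mulLeft L (3 * x ^ 2 - 2 * algebraMap L K p * x - algebraMap L K q)) := by
    refine B.ext fun i => ?_
    rw [LinearMap.comp_apply, LinearMap.mulLeft_apply, Module.Basis.coord_apply]
    fin_cases i
    · show Algebra.trace L K (B 0) = B.repr (_ * B 0) 2
      rw [h0, e1]
      have g := (R (-q) (-(2 * p)) 3).2.2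
      have f : (3 * x ^ 2 - 2 * algebraMap L K p * x - algebraMap L K q) * 1 =
          algebraMap L K (-q) + algebraMap L K (-(2 * p)) * x + algebraMap L K 3 * x ^ 2 := by
        simp only [map_neg, map_mul, map_ofNat]
        ring
      rw [f, g]
    · show Algebra.trace L K (B 1) = B.repr (_ * B 1) 2
      rw [h1, e2]
      have g := (R (3 * r) (3 * q - q) (3 * p - 2 * p)).2.2
      have f : (3 * x ^ 2 - 2 * algebraMap L K p * x - algebraMap L K q) * x =
          algebraMap L K (3 * r) + algebraMap L K (3 * q - q) * x +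
            algebraMap L K (3 * p - 2 * p) * x ^ 2 := by
        simp only [map_sub, map_mul, map_ofNat]
        linear_combination 3 * hx
      rw [f, g]
      ring
    · show Algebra.trace L K (B 2) = B.repr (_ * B 2) 2
      rw [h2, e3]
      have g := (R (3 * (p * r) - 2 * p * r) (3 * (p * q + r) - 2 * p * q)
        (3 * (p ^ 2 + q) - 2 * p * p - q)).2.2
      have f : (3 * x ^ 2 - 2 * algebraMap L K p * x - algebraMap L K q) * x ^ 2 =
          algebraMap L K (3 * (p * r) - 2 * p * r) +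
            algebraMap L K (3 * (p * q + r) - 2 * p * q) * x +
            algebraMap L K (3 * (p ^ 2 + q) - 2 * p * p - q) * x ^ 2 := by
        simp only [map_sub, map_mul, map_ofNat, map_add, map_pow]
        simp only [map_add, map_mul, map_pow] at hx4
        linear_combination 3 * hx4 - 2 * algebraMap L K p * hx
      rw [f, g]
      ring
  calc Algebra.trace L K z = ((B.coord 2) ∘ₗ
      (LinearMap.mulLeft L (3 * x ^ 2 - 2 * algebraMap L K p * x - algebraMap L K q))) z := by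
        rw [← key]
    _ = _ := rfl

/-- Euler's formula -/
theorem euler (B : Module.Basis (Fin 3) L K) (x : K) (h0 : B 0 = 1) (h1 : B 1 = x)
    (h2 : B 2 = x ^ 2) (a b c d : L) (ha : a ≠ 0)
    (hx : algebraMap L K a * x ^ 3 + algebraMap L K b * x ^ 2 + algebraMap L K c * x +
      algebraMap L K d = 0) (z : K) :
    a * Algebra.trace L K z = B.repr ((3 * algebraMap L K a * x ^ 2 + 2 * algebraMap L K b * x +
      algebraMap L K c) * z) 2 := by
  have ha' : algebraMap L K a ≠ 0 := by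
    intro h
    exact ha ((map_eq_zero _).1 h)
  have hx' : x ^ 3 = algebraMap L K (-b / a) * x ^ 2 + algebraMap L K (-c / a) * x +
      algebraMap L K (-d / a) := by
    simp only [map_div₀, map_neg]
    field_simp
    linear_combination hx
  have h := repT B x h0 h1 h2 (-b / a) (-c / a) (-d / a) hx' z
  rw [h]
  have e : (3 * algebraMap L K a * x ^ 2 + 2 * algebraMap L K b * x + algebraMap L K c) * z =
      a • ((3 * x ^ 2 - 2 * algebraMap L K (-b / a) * x - algebraMap L K (-c / a)) * z) := by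
    rw [Algebra.smul_def]
    simp only [map_div₀, map_neg]
    field_simp
    ring
  rw [e, map_smul, Finsupp.smul_apply, smul_eq_mul]

end Euler

/-- the Delone–Faddeev normal form -/
theorem df (P R : Type) [CommRing P] [IsDomain P] [CommRing R] [IsDomain R] [Algebra P R]
    (bs : Module.Basis (Fin 3) P R) (h0 : bs 0 = 1) :
    ∃ (a b c d : P) (ω θ : R), a ≠ 0 ∧
      (∀ r : R, ∃ r₀ r₁ r₂ : P, r = algebraMap P R r₀ + r₁ • ω + r₂ • θ) ∧
      (∀ r₀ r₁ r₂ : P, algebraMap P R r₀ + r₁ • ω + r₂ • θ = 0 → r₀ = 0 ∧ r₁ = 0 ∧ r₂ = 0) ∧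
      ω * θ = -(algebraMap P R (a * d)) ∧
      ω * ω = -(algebraMap P R (a * c)) - algebraMap P R b * ω + algebraMap P R a * θ ∧
      θ * θ = -(algebraMap P R (b * d)) - algebraMap P R d * ω + algebraMap P R c * θ := by
  -- coordinates in the basis
  have hsp : ∀ r : R, ∃ s₀ s₁ s₂ : P, r = algebraMap P R s₀ + algebraMap P R s₁ * bs 1 +
      algebraMap P R s₂ * bs 2 := by
    intro r
    refine ⟨bs.repr r 0, bs.repr r 1, bs.repr r 2, ?_⟩
    have h := bs.sum_repr r
    rw [Fin.sum_univ_three, h0] at h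
    rw [← Algebra.smul_def, ← Algebra.smul_def, ← mul_one (algebraMap P R (bs.repr r 0)),
      ← Algebra.smul_def]
    exact h.symm
  have hind : ∀ s₀ s₁ s₂ : P, algebraMap P R s₀ + algebraMap P R s₁ * bs 1 +
      algebraMap P R s₂ * bs 2 = 0 → s₀ = 0 ∧ s₁ = 0 ∧ s₂ = 0 := by
    intro s₀ s₁ s₂ h
    have e : algebraMap P R s₀ + algebraMap P R s₁ * bs 1 + algebraMap P R s₂ * bs 2 =
        ∑ i, (![s₀, s₁, s₂] : Fin 3 → P) i • bs i := by
      rw [Fin.sum_univ_three, h0]
      simp only [Matrix.cons_val_zero, Matrix.cons_val_one, Matrix.cons_val_two, Matrix.head_cons,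
        Matrix.tail_cons, Algebra.smul_def, mul_one]
    have h3 := Fintype.linearIndependent_iff.1 bs.linearIndependent ![s₀, s₁, s₂] (by rw [← e, h])
    exact ⟨h3 0, h3 1, h3 2⟩
  obtain ⟨u, v, w, hz⟩ := hsp (bs 1 * bs 2)
  obtain ⟨ω, hω⟩ : ∃ ω : R, ω = bs 1 - algebraMap P R w := ⟨_, rfl⟩
  obtain ⟨θ, hθ⟩ : ∃ θ : R, θ = bs 2 - algebraMap P R v := ⟨_, rfl⟩
  have hsp' : ∀ r : R, ∃ s₀ s₁ s₂ : P, r = algebraMap P R s₀ + algebraMap P R s₁ * ω +
      algebraMap P R s₂ * θ := by
    intro r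
    obtain ⟨s₀, s₁, s₂, h⟩ := hsp r
    refine ⟨s₀ + s₁ * w + s₂ * v, s₁, s₂, ?_⟩
    rw [h, hω, hθ]
    simp only [map_add, map_mul]
    ring
  have hind' : ∀ s₀ s₁ s₂ : P, algebraMap P R s₀ + algebraMap P R s₁ * ω +
      algebraMap P R s₂ * θ = 0 → s₀ = 0 ∧ s₁ = 0 ∧ s₂ = 0 := by
    intro s₀ s₁ s₂ h
    have h3 := hind (s₀ - s₁ * w - s₂ * v) s₁ s₂ (by
      rw [← h, hω, hθ]
      simp only [map_sub, map_mul]
      ring)
    obtain ⟨h4, h5, h6⟩ := h3
    subst h5 h6
    refine ⟨?_, rfl, rfl⟩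
    simpa using h4
  obtain ⟨n, hn⟩ : ∃ n : P, n = u + v * w := ⟨_, rfl⟩
  have h1 : ω * θ = algebraMap P R n := by
    rw [hω, hθ, hn]
    simp only [map_add, map_mul]
    linear_combination hz
  obtain ⟨α, β, γ, h2⟩ := hsp' (ω * ω)
  obtain ⟨α', β', γ', h3⟩ := hsp' (θ * θ)
  -- associativity
  obtain ⟨-, r1, r2⟩ := hind' (β * n + γ * α') (γ * β' - n) (α + γ * γ') (by
    simp only [map_add, map_mul, map_sub]
    linear_combination (-algebraMap P R β + ω) * h1 - θ * h2 - algebraMap P R γ * h3)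
  obtain ⟨-, r3, -⟩ := hind' (β' * α + γ' * n) (α' + β' * β) (β' * γ - n) (by
    simp only [map_add, map_mul, map_sub]
    linear_combination (-algebraMap P R γ' + θ) * h1 - ω * h3 - algebraMap P R β' * h2)
  have q1 : n = γ * β' := by linear_combination -r1
  have q2 : α = -(γ * γ') := by linear_combination r2
  have q3 : α' = -(β' * β) := by linear_combination r3
  refine ⟨γ, -β, γ', -β', ω, θ, ?_, ?_, ?_, ?_, ?_, ?_⟩
  · rintro rfl
    have q4 : ω * (ω - algebraMap P R β) = 0 := by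
      have : α = 0 := by rw [q2]; ring
      rw [this] at h2
      simp only [map_zero, zero_add, zero_mul, add_zero] at h2
      linear_combination h2
    rcases mul_eq_zero.1 q4 with h | h
    · have := hind' 0 1 0 (by rw [h]; simp)
      exact one_ne_zero this.2.1
    · have := hind' (-β) 1 0 (by
        simp only [map_neg, map_one, map_zero, zero_mul, add_zero, one_mul]
        linear_combination h)
      exact one_ne_zero this.2.1
  · intro r
    obtain ⟨s₀, s₁, s₂, h⟩ := hsp' r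
    exact ⟨s₀, s₁, s₂, by rw [h, Algebra.smul_def, Algebra.smul_def]⟩
  · intro s₀ s₁ s₂ h
    rw [Algebra.smul_def, Algebra.smul_def] at h
    exact hind' s₀ s₁ s₂ h
  · rw [h1, q1]
    simp only [map_mul, map_neg]
    ring
  · rw [h2, q2]
    simp only [map_mul, map_neg]
    ring
  · rw [h3, q3]
    simp only [map_mul, map_neg]
    ring

theorem cub : Pool.Agent.H867.FT.S_CUB := by
  intro P R L K _ _ _ _ _ _ _ _ _ _ _ _ _ _ _ _ _ bs C h0 hC
  obtain ⟨a, b, c, d, ω, θ, ha, hsp, hind, hωθ, hωω, hθθ⟩ := df P R bs h0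
  have hPL : Function.Injective (algebraMap P L) := IsFractionRing.injective P L
  have hRK : Function.Injective (algebraMap R K) := IsFractionRing.injective R K
  have hPK : ∀ g : P, algebraMap P K g = algebraMap L K (algebraMap P L g) :=
    fun g => IsScalarTower.algebraMap_apply P L K g
  have hPK' : ∀ g : P, algebraMap R K (algebraMap P R g) = algebraMap P K g :=
    fun g => (IsScalarTower.algebraMap_apply P R K g).symm
  -- the images in `K`
  obtain ⟨A, hA⟩ : ∃ A : K, A = algebraMap P K a := ⟨_, rfl⟩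
  obtain ⟨B, hB⟩ : ∃ B : K, B = algebraMap P K b := ⟨_, rfl⟩
  obtain ⟨Cc, hCc⟩ : ∃ Cc : K, Cc = algebraMap P K c := ⟨_, rfl⟩
  obtain ⟨D, hD⟩ : ∃ D : K, D = algebraMap P K d := ⟨_, rfl⟩
  obtain ⟨W, hW⟩ : ∃ W : K, W = algebraMap R K ω := ⟨_, rfl⟩
  obtain ⟨T, hT⟩ : ∃ T : K, T = algebraMap R K θ := ⟨_, rfl⟩
  have haL : algebraMap P L a ≠ 0 := by
    intro h
    exact ha (hPL (by rw [h, map_zero]))
  have hA0 : A ≠ 0 := by
    rw [hA, hPK]
    intro h
    exact haL ((map_eq_zero _).1 h)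
  have e1 : W * T = -(A * D) := by
    have h := congrArg (algebraMap R K) hωθ
    simp only [map_mul, map_neg, hPK'] at h
    rw [hW, hT, hA, hD, h]
  have e2 : W * W = -(A * Cc) - B * W + A * T := by
    have h := congrArg (algebraMap R K) hωω
    simp only [map_mul, map_neg, map_sub, map_add, hPK'] at h
    rw [hW, hT, hA, hB, hCc, h]
  have e3 : T * T = -(B * D) - D * W + Cc * T := by
    have h := congrArg (algebraMap R K) hθθ
    simp only [map_mul, map_neg, map_sub, map_add, hPK'] at h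
    rw [hW, hT, hD, hB, hCc, h]
  obtain ⟨x, hx⟩ : ∃ x : K, x = W / A := ⟨_, rfl⟩
  have ex : A * x = W := by rw [hx]; field_simp
  have eT : T = A * x ^ 2 + B * x + Cc := by
    apply mul_left_cancel₀ hA0
    linear_combination -(A * x + W + B) * ex - e2
  have exT : x * T = -D := by
    apply mul_left_cancel₀ hA0
    linear_combination T * ex + e1
  have ecub : A * x ^ 3 + B * x ^ 2 + Cc * x + D = 0 := by
    linear_combination exT - x * eT
  -- independence over `L`
  have hindL : ∀ l₀ l₁ l₂ : L, algebraMap L K l₀ + algebraMap L K l₁ * W +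
      algebraMap L K l₂ * T = 0 → l₀ = 0 ∧ l₁ = 0 ∧ l₂ = 0 := by
    intro l₀ l₁ l₂ h
    obtain ⟨p₀, s₀, hs₀, rfl⟩ := IsFractionRing.div_surjective (A := P) l₀
    obtain ⟨p₁, s₁, hs₁, rfl⟩ := IsFractionRing.div_surjective (A := P) l₁
    obtain ⟨p₂, s₂, hs₂, rfl⟩ := IsFractionRing.div_surjective (A := P) l₂
    have n₀ : s₀ ≠ 0 := nonZeroDivisors.ne_zero hs₀
    have n₁ : s₁ ≠ 0 := nonZeroDivisors.ne_zero hs₁
    have n₂ : s₂ ≠ 0 := nonZeroDivisors.ne_zero hs₂
    have hne : ∀ s : P, s ≠ 0 → algebraMap P K s ≠ 0 := by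
      intro s hs h
      rw [hPK] at h
      exact hs (hPL (by rw [(map_eq_zero _).1 h, map_zero]))
    have m₀ := hne s₀ n₀
    have m₁ := hne s₁ n₁
    have m₂ := hne s₂ n₂
    simp only [map_div₀, ← hPK] at h
    have h4 : algebraMap P K (p₀ * s₁ * s₂) + algebraMap P K (p₁ * s₀ * s₂) * W +
        algebraMap P K (p₂ * s₀ * s₁) * T = 0 := by
      simp only [map_mul]
      field_simp at h
      linear_combination h
    have h5 := hind (p₀ * s₁ * s₂) (p₁ * s₀ * s₂) (p₂ * s₀ * s₁) (by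
      apply hRK
      rw [map_zero, ← h4, Algebra.smul_def, Algebra.smul_def, hW, hT]
      simp only [map_add, map_mul, hPK'])
    obtain ⟨h6, h7, h8⟩ := h5
    refine ⟨?_, ?_, ?_⟩
    · rcases mul_eq_zero.1 h6 with h | h
      · rcases mul_eq_zero.1 h with h | h
        · rw [h, map_zero, zero_div]
        · exact absurd h n₁
      · exact absurd h n₂
    · rcases mul_eq_zero.1 h7 with h | h
      · rcases mul_eq_zero.1 h with h | h
        · rw [h, map_zero, zero_div]
        · exact absurd h n₀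
      · exact absurd h n₂
    · rcases mul_eq_zero.1 h8 with h | h
      · rcases mul_eq_zero.1 h with h | h
        · rw [h, map_zero, zero_div]
        · exact absurd h n₀
      · exact absurd h n₁
  obtain ⟨aL, haL'⟩ : ∃ aL : L, aL = algebraMap P L a := ⟨_, rfl⟩
  obtain ⟨bL, hbL'⟩ : ∃ bL : L, bL = algebraMap P L b := ⟨_, rfl⟩
  obtain ⟨cL, hcL'⟩ : ∃ cL : L, cL = algebraMap P L c := ⟨_, rfl⟩
  obtain ⟨dL, hdL'⟩ : ∃ dL : L, dL = algebraMap P L d := ⟨_, rfl⟩
  have hAL : algebraMap L K aL = A := by rw [haL', hA, hPK]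
  have hBL : algebraMap L K bL = B := by rw [hbL', hB, hPK]
  have hCL : algebraMap L K cL = Cc := by rw [hcL', hCc, hPK]
  have hDL : algebraMap L K dL = D := by rw [hdL', hD, hPK]
  have haL0 : aL ≠ 0 := by rw [haL']; exact haL
  have hindx : ∀ l₀ l₁ l₂ : L, algebraMap L K l₀ + algebraMap L K l₁ * x +
      algebraMap L K l₂ * x ^ 2 = 0 → l₀ = 0 ∧ l₁ = 0 ∧ l₂ = 0 := by
    intro l₀ l₁ l₂ h
    have h3 := hindL (aL ^ 2 * l₀ - aL * cL * l₂) (aL * l₁ - bL * l₂) (aL * l₂) (by
      simp only [map_sub, map_mul, map_pow, hAL, hBL, hCL]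
      rw [eT, ← ex]
      linear_combination A ^ 2 * h)
    obtain ⟨h4, h5, h6⟩ := h3
    have h7 : l₂ = 0 := (mul_eq_zero.1 h6).resolve_left haL0
    rw [h7] at h4 h5
    simp only [mul_zero, sub_zero] at h4 h5
    exact ⟨(mul_eq_zero.1 h4).resolve_left (pow_ne_zero 2 haL0),
      (mul_eq_zero.1 h5).resolve_left haL0, h7⟩
  -- the basis `1, x, x²`
  have hfin : Module.finrank L K = 3 := by
    rw [IsFractionRing.finrank_eq P L R K, Module.finrank_eq_card_basis bs, Fintype.card_fin]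
  have hli : LinearIndependent L (![1, x, x ^ 2] : Fin 3 → K) := by
    rw [Fintype.linearIndependent_iff]
    intro g hg
    rw [Fin.sum_univ_three] at hg
    simp only [Matrix.cons_val_zero, Matrix.cons_val_one, Matrix.cons_val_two, Matrix.head_cons,
      Matrix.tail_cons, Algebra.smul_def, mul_one] at hg
    obtain ⟨g0, g1, g2⟩ := hindx (g 0) (g 1) (g 2) hg
    intro i
    fin_cases i
    · exact g0
    · exact g1
    · exact g2
  obtain ⟨Bs, hBs⟩ : ∃ Bs : Module.Basis (Fin 3) L K, ⇑Bs = ![1, x, x ^ 2] := by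
    refine ⟨basisOfLinearIndependentOfCardEqFinrank hli (by rw [hfin, Fintype.card_fin]), ?_⟩
    exact coe_basisOfLinearIndependentOfCardEqFinrank _ _
  have B0 : Bs 0 = 1 := by rw [hBs]; rfl
  have B1 : Bs 1 = x := by rw [hBs]; rfl
  have B2 : Bs 2 = x ^ 2 := by rw [hBs]; rfl
  have hE := euler Bs x B0 B1 B2 aL bL cL dL haL0 (by rw [hAL, hBL, hCL, hDL]; exact ecub)
  rw [hAL, hBL, hCL] at hE
  obtain ⟨f, hf⟩ : ∃ f : K, f = 3 * A * x ^ 2 + 2 * B * x + Cc := ⟨_, rfl⟩
  rw [← hf] at hE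
  have hf0 : f ≠ 0 := by
    intro h
    apply Algebra.trace_ne_zero L K
    refine LinearMap.ext fun z => ?_
    have h3 := hE z
    rw [h, zero_mul, map_zero, Finsupp.zero_apply] at h3
    exact (mul_eq_zero.1 h3).resolve_left haL0
  -- traces of `x ^ i / f`
  have hTr : ∀ l₀ l₁ l₂ : L, Algebra.trace L K (f⁻¹ * (algebraMap L K l₀ + algebraMap L K l₁ * x +
      algebraMap L K l₂ * x ^ 2)) = l₂ / aL := by
    intro l₀ l₁ l₂
    have h3 := hE (f⁻¹ * (algebraMap L K l₀ + algebraMap L K l₁ * x +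
      algebraMap L K l₂ * x ^ 2))
    rw [mul_inv_cancel_left₀ hf0, (rep Bs x B0 B1 B2 l₀ l₁ l₂).2.2] at h3
    rw [eq_div_iff haL0, mul_comm]
    exact h3
  have t1 : ∀ l₀ l₁ l₂ : L, Algebra.trace L K (f⁻¹ * (algebraMap L K l₀ + algebraMap L K l₁ * x +
      algebraMap L K l₂ * T)) = l₂ := by
    intro l₀ l₁ l₂
    have h3 := hTr (l₀ + l₂ * cL) (l₁ + l₂ * bL) (l₂ * aL)
    rw [mul_div_cancel_right₀ _ haL0] at h3
    refine Eq.trans (congrArg _ ?_) h3
    simp only [map_add, map_mul, hAL, hBL, hCL]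
    rw [eT]
    ring
  have t2 : ∀ l₀ l₁ l₂ : L, Algebra.trace L K (f⁻¹ * (algebraMap L K l₀ + algebraMap L K l₁ * x +
      algebraMap L K l₂ * T) * W) = l₁ := by
    intro l₀ l₁ l₂
    have h3 := hTr (-(l₂ * aL * dL)) (l₀ * aL) (l₁ * aL)
    rw [mul_div_cancel_right₀ _ haL0] at h3
    refine Eq.trans (congrArg _ ?_) h3
    simp only [map_neg, map_mul, hAL, hDL]
    linear_combination (f⁻¹ * algebraMap L K l₂) * e1 -
      (f⁻¹ * (algebraMap L K l₀ + algebraMap L K l₁ * x)) * ex
  have t3 : ∀ l₀ l₁ l₂ : L, Algebra.trace L K (f⁻¹ * (algebraMap L K l₀ + algebraMap L K l₁ * x +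
      algebraMap L K l₂ * T) * T) = l₀ + cL * l₂ := by
    intro l₀ l₁ l₂
    have h3 := hTr (l₀ * cL - l₁ * dL - l₂ * bL * dL + l₂ * cL ^ 2)
      (l₀ * bL - l₂ * dL * aL + l₂ * cL * bL) ((l₀ + cL * l₂) * aL)
    rw [mul_div_cancel_right₀ _ haL0] at h3
    refine Eq.trans (congrArg _ ?_) h3
    simp only [map_add, map_sub, map_mul, map_pow, hAL, hBL, hCL, hDL]
    linear_combination (f⁻¹ * algebraMap L K l₂) * e3 + (f⁻¹ * algebraMap L K l₁) * exT +
      (f⁻¹ * (algebraMap L K l₀ + algebraMap L K l₂ * Cc)) * eT +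
      (f⁻¹ * algebraMap L K l₂ * D) * ex
  -- coordinates of an element of `K`
  have hK : ∀ z : K, ∃ l₀ l₁ l₂ : L, z = algebraMap L K l₀ + algebraMap L K l₁ * x +
      algebraMap L K l₂ * T := by
    intro z
    have h := Bs.sum_repr z
    rw [Fin.sum_univ_three, B0, B1, B2, Algebra.smul_def, Algebra.smul_def, Algebra.smul_def,
      mul_one] at h
    refine ⟨Bs.repr z 0 - Bs.repr z 2 / aL * cL, Bs.repr z 1 - Bs.repr z 2 / aL * bL,
      Bs.repr z 2 / aL, ?_⟩
    simp only [map_sub, map_mul, map_div₀, hAL, hBL, hCL]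
    rw [eT]
    conv_lhs => rw [← h]
    field_simp
    ring
  refine ⟨a, b, c, d, x, f⁻¹, ω, θ, ha, inv_ne_zero hf0, ?_, ?_, ?_, hsp, hindx, ?_⟩
  · rw [← hA, ← hB, ← hCc, ← hD]
    exact ecub
  · rw [← hW, ← hA]
    exact ex.symm
  · rw [← hT, ← hA, ← hB, ← hCc]
    exact eT
  · intro y
    rw [hC]
    constructor
    · intro hy
      obtain ⟨l₀, l₁, l₂, hl⟩ := hK (f * y)
      have hy' : y = f⁻¹ * (algebraMap L K l₀ + algebraMap L K l₁ * x + algebraMap L K l₂ * T) := by
        rw [← hl, inv_mul_cancel_left₀ hf0]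
      obtain ⟨g₂, hg₂⟩ := hy 1
      rw [map_one, mul_one, hy', t1] at hg₂
      obtain ⟨g₁, hg₁⟩ := hy ω
      rw [← hW, hy', t2] at hg₁
      obtain ⟨g₀, hg₀⟩ := hy θ
      rw [← hT, hy', t3] at hg₀
      refine ⟨g₀ - c * g₂, g₁, g₂, ?_⟩
      rw [hy', ← hT]
      simp only [hPK, map_sub, map_mul]
      rw [hg₀, hg₁, hg₂, ← hcL']
      simp only [map_add, map_mul]
      ring
    · rintro ⟨g₀, g₁, g₂, rfl⟩ r
      obtain ⟨r₀, r₁, r₂, rfl⟩ := hsp r
      refine ⟨r₀ * g₂ + r₁ * g₁ + r₂ * (g₀ + c * g₂), ?_⟩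
      have e : f⁻¹ * (algebraMap P K g₀ + algebraMap P K g₁ * x + algebraMap P K g₂ *
          algebraMap R K θ) * algebraMap R K (algebraMap P R r₀ + r₁ • ω + r₂ • θ) =
          (algebraMap P L r₀) • (f⁻¹ * (algebraMap L K (algebraMap P L g₀) +
            algebraMap L K (algebraMap P L g₁) * x + algebraMap L K (algebraMap P L g₂) * T)) +
          (algebraMap P L r₁) • (f⁻¹ * (algebraMap L K (algebraMap P L g₀) +
            algebraMap L K (algebraMap P L g₁) * x + algebraMap L K (algebraMap P L g₂) * T) * W) +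
          (algebraMap P L r₂) • (f⁻¹ * (algebraMap L K (algebraMap P L g₀) +
            algebraMap L K (algebraMap P L g₁) * x + algebraMap L K (algebraMap P L g₂) * T) * T) := by
        rw [Algebra.smul_def, Algebra.smul_def, Algebra.smul_def, Algebra.smul_def,
          Algebra.smul_def, map_add, map_add, map_mul, map_mul, hPK', hPK', hPK', ← hW, ← hT]
        simp only [hPK]
        ring
      rw [e, LinearMap.map_add, LinearMap.map_add, LinearMap.map_smul, LinearMap.map_smul,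
        LinearMap.map_smul, t1, t2, t3]
      simp only [smul_eq_mul, map_add, map_mul]
      rw [hcL']

end Pool.Agent.H597.FT867CUB
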