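import Pool.Agent.H770.GS.TA

/-!
# Project TA (helper770), S_comp: comparison of weights (single crossing)
-/

set_option autoImplicit false

open MeasureTheory Set intervalIntegral

namespace Pool.Agent.H597.GScomp

open Pool.Agent.Helper82.GC Pool.Agent.H770.GS

theorem NR_cont (r v : ℝ) : Continuous (NR r v) := by
  unfold NR
  have h := W_cont
  fun_prop

theorem NR_deriv (r v a : ℝ) : HasDerivAt (NR r v) (a * W (v - a) * (1 + v ^ 2 - v * a)) a := by
  have h1 : HasDerivAt (fun a : ℝ => v - a) (-1) a := by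
    simpa using (hasDerivAt_id a).const_sub v
  have h2 : HasDerivAt (fun a : ℝ => W (v - a)) (-((v - a) * W (v - a)) * (-1)) a :=
    (W_deriv (v - a)).comp a h1
  have h3 : HasDerivAt (fun a : ℝ => 1 - v * a) (-v) a := by
    simpa using ((hasDerivAt_id a).const_mul v).const_sub 1
  have h4 := (h3.mul h2).const_sub (W r)
  refine h4.congr_deriv ?_
  ring

theorem NR_mono {r v : ℝ} (hv : 0 < v) : MonotoneOn (NR r v) (Icc 0 (1 / v)) := by
  refine monotoneOn_of_deriv_nonneg (convex_Icc _ _) (NR_cont r v).continuousOn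
    (fun a _ => (NR_deriv r v a).differentiableAt.differentiableWithinAt) ?_
  intro a ha
  rw [interior_Icc] at ha
  rw [(NR_deriv r v a).deriv]
  have h1 : v * a < 1 := by
    have := (lt_div_iff₀ hv).1 ha.2
    linarith
  have h2 := W_pos (v - a)
  have h3 : 0 ≤ 1 + v ^ 2 - v * a := by nlinarith [sq_nonneg v]
  exact mul_nonneg (mul_nonneg ha.1.le h2.le) h3

theorem NR_pos {r v a : ℝ} (h : 1 ≤ v * a) : 0 < NR r v a := by
  unfold NR
  have h1 := W_pos (v - a)
  have h2 := W_pos r
  nlinarith

/-- the crossing point -/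
theorem cross {r v : ℝ} (hv : 0 < v) (hr : v < r) : ∃ a₀ ∈ Icc (r - v) (r + v),
    (∀ a ∈ Icc (r - v) a₀, NR r v a ≤ 0 ∨ a = a₀) ∧ ∀ a ∈ Icc a₀ (r + v), 0 ≤ NR r v a := by
  have hle : r - v ≤ r + v := by linarith
  by_cases h : 0 ≤ NR r v (r - v)
  · refine ⟨r - v, ⟨le_rfl, hle⟩, ?_, ?_⟩
    · intro a ha
      exact Or.inr (le_antisymm ha.2 ha.1)
    · intro a ha
      by_cases h1 : 1 ≤ v * a
      · exact (NR_pos h1).le
      · push Not at h1
        have h2 : a ≤ 1 / v := by
          rw [le_div_iff₀ hv]; linarith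
        exact h.trans (NR_mono hv ⟨by linarith, ha.1.trans h2⟩
          ⟨by linarith [ha.1], h2⟩ ha.1)
  · push Not at h
    have hend : 0 ≤ NR r v (r + v) := by
      have e : NR r v (r + v) = v * (r + v) * W r := by
        unfold NR
        have e1 : v - (r + v) = -r := by ring
        rw [e1, W_even]; ring
      rw [e]
      have := W_pos r
      have h2 : 0 < r + v := by linarith
      positivity
    obtain ⟨a₀, ha₀, h0⟩ := intermediate_value_Icc hle (NR_cont r v).continuousOn ⟨h.le, hend⟩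
    have hva : v * a₀ < 1 := by
      by_contra hc
      push Not at hc
      have := NR_pos (r := r) hc
      linarith
    have h2 : a₀ ≤ 1 / v := by
      rw [le_div_iff₀ hv]; linarith
    refine ⟨a₀, ha₀, ?_, ?_⟩
    · intro a ha
      left
      rw [← h0]
      exact NR_mono hv ⟨by linarith [ha.1], ha.2.trans h2⟩ ⟨by linarith [ha₀.1], h2⟩ ha.2
    · intro a ha
      by_cases h1 : 1 ≤ v * a
      · exact (NR_pos h1).le
      · push Not at h1
        have h3 : a ≤ 1 / v := by
          rw [le_div_iff₀ hv]; linarith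
        rw [← h0]
        exact NR_mono hv ⟨by linarith [ha₀.1], h2⟩ ⟨by linarith [ha₀.1, ha.1], h3⟩ ha.1

theorem t_comp : S_comp := by
  intro hI r v g hv hr hg hg0 hgc
  have hle : r - v ≤ r + v := by linarith
  obtain ⟨a₀, ha₀, h1, h2⟩ := cross hv hr
  have hW := W_cont
  have hN := NR_cont r v
  have hne : ∀ a ∈ Icc (r - v) (r + v), a ^ 2 ≠ 0 := by
    intro a ha
    have : 0 < a := by linarith [ha.1]
    positivity
  have hc1 : ContinuousOn (fun a => NR r v a * (W a / a ^ 2)) (Icc (r - v) (r + v)) :=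
    hN.continuousOn.mul (hW.continuousOn.div (by fun_prop) hne)
  have hc2 : ContinuousOn (fun a => NR r v a * (g a * W a / a ^ 2)) (Icc (r - v) (r + v)) :=
    hN.continuousOn.mul ((hgc.mul hW.continuousOn).div (by fun_prop) hne)
  have hi1 : IntervalIntegrable (fun a => NR r v a * (W a / a ^ 2)) volume (r - v) (r + v) := by
    refine ContinuousOn.intervalIntegrable ?_
    rwa [uIcc_of_le hle]
  have hi2 : IntervalIntegrable (fun a => NR r v a * (g a * W a / a ^ 2)) volume
      (r - v) (r + v) := by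
    refine ContinuousOn.intervalIntegrable ?_
    rwa [uIcc_of_le hle]
  have h3 : 0 ≤ g a₀ * ∫ a in (r - v)..(r + v), NR r v a * (W a / a ^ 2) :=
    mul_nonneg (hg0 a₀ ha₀) (hI r v hv hr)
  refine h3.trans ?_
  rw [← intervalIntegral.integral_const_mul]
  refine intervalIntegral.integral_mono_on hle (hi1.const_mul _) hi2 ?_
  intro a ha
  have hw : 0 ≤ W a / a ^ 2 := div_nonneg (W_pos a).le (sq_nonneg a)
  have key : 0 ≤ NR r v a * (g a - g a₀) := by
    rcases le_total a a₀ with h | h
    · rcases h1 a ⟨ha.1, h⟩ with h4 | h4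
      · exact mul_nonneg_of_nonpos_of_nonpos h4 (sub_nonpos.2 (hg ha ha₀ h))
      · rw [h4]; simp
    · exact mul_nonneg (h2 a ⟨h, ha.2⟩) (sub_nonneg.2 (hg ha₀ ha h))
  have h5 := mul_nonneg key hw
  have e : NR r v a * (g a * W a / a ^ 2) - g a₀ * (NR r v a * (W a / a ^ 2)) =
      NR r v a * (g a - g a₀) * (W a / a ^ 2) := by ring
  linarith

end Pool.Agent.H597.GScomp
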