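import Mathlib
import Pool.Agent.H979.BK.Stm

set_option autoImplicit false

/-!
# MP_1e2081_pr (project BK): the upper bound
-/

open Filter Topology Finset Pool.Agent.H979.BK

namespace Pool.Agent.H597

namespace BKU

theorem E_mem (h1 : S_A1) {d n k : ℕ} {μ : Equiv.Perm (Fin d) → ℝ} (hμ : IsProb μ) (hkn : k ≤ n)
    (m : ℕ) (f : (Ball d n → Fin d) → ℝ) (hf : ∀ u, 0 ≤ f u ∧ f u ≤ 1) :
    0 ≤ E μ k m f ∧ E μ k m f ≤ 1 := by
  obtain ⟨p, hp0, hp1, -, hp⟩ := h1 d n k μ hμ hkn m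
  rw [hp f]
  refine ⟨sum_nonneg fun u _ => mul_nonneg (hp0 u) (hf u).1, ?_⟩
  rw [← hp1]
  exact sum_le_sum fun u _ => mul_le_of_le_one_right (hp0 u) (hf u).2

theorem E_close (h1 : S_A1) {d n k : ℕ} {μ : Equiv.Perm (Fin d) → ℝ} (hμ : IsProb μ) (hkn : k ≤ n)
    (m : ℕ) (f : (Ball d n → Fin d) → ℝ) (a R : ℝ) (hf : ∀ u, |f u - a| ≤ R) :
    |E μ k m f - a| ≤ R := by
  obtain ⟨p, hp0, hp1, -, hp⟩ := h1 d n k μ hμ hkn m
  have e : E μ k m f - a = ∑ u, p u * (f u - a) := by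
    rw [hp f]
    simp_rw [mul_sub]
    rw [sum_sub_distrib, ← sum_mul, hp1, one_mul]
  rw [e]
  refine (abs_sum_le_sum_abs _ _).trans ?_
  calc ∑ u, |p u * (f u - a)| ≤ ∑ u, p u * R := by
        refine sum_le_sum fun u _ => ?_
        rw [abs_mul, abs_of_nonneg (hp0 u)]
        exact mul_le_mul_of_nonneg_left (hf u) (hp0 u)
    _ = R := by rw [← sum_mul, hp1, one_mul]

theorem cnt_le {d n : ℕ} (c u : Ball d n → Fin d) (l j : Fin d) : (cnt c u l j : ℝ) ≤ d * n := by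
  have h : cnt c u l j ≤ d * n := by
    unfold cnt
    refine (card_le_univ _).trans (le_of_eq ?_)
    simp [Ball]
  exact_mod_cast h

theorem ell_le {d n : ℕ} (c c' : Ball d n → Fin d) :
    ell (cnt c Prod.fst) (cnt c' Prod.fst) ≤ (d:ℝ) ^ 3 * n := by
  unfold ell
  have h : ∀ l j : Fin d, |((cnt c Prod.fst l j : ℕ) : ℝ) - ((cnt c' Prod.fst l j : ℕ) : ℝ)| ≤
      (d:ℝ) * n := by
    intro l j
    have h1 := cnt_le c Prod.fst l j
    have h2 := cnt_le c' Prod.fst l j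
    have h3 : (0:ℝ) ≤ cnt c Prod.fst l j := Nat.cast_nonneg _
    have h4 : (0:ℝ) ≤ cnt c' Prod.fst l j := Nat.cast_nonneg _
    rw [abs_le]
    constructor <;> linarith
  calc ∑ l, ∑ j, |((cnt c Prod.fst l j : ℕ) : ℝ) - ((cnt c' Prod.fst l j : ℕ) : ℝ)|
      ≤ ∑ _l : Fin d, ∑ _j : Fin d, (d:ℝ) * n := sum_le_sum fun l _ => sum_le_sum fun j _ => h l j
    _ = (d:ℝ) ^ 3 * n := by
      simp only [sum_const, card_univ, Fintype.card_fin, nsmul_eq_mul]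
      ring

open Classical in
/-- some count is small -/
noncomputable def beta (d n : ℕ) (x : Fin d → Fin d → ℕ) : ℝ :=
  if ∃ i j, 2 * (d:ℝ) * x i j < n then 1 else 0

theorem beta_nonneg (d n : ℕ) (x : Fin d → Fin d → ℕ) : 0 ≤ beta d n x := by
  unfold beta
  split_ifs <;> norm_num

theorem beta_le {d n : ℕ} (hd : 1 ≤ d) (hn : 1 ≤ n) (x : Fin d → Fin d → ℕ) :
    beta d n x ≤ ∑ i, ∑ j, 4 * (d:ℝ) ^ 2 / (n:ℝ) ^ 2 * ((x i j : ℝ) - (n:ℝ) / d) ^ 2 := by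
  have hd0 : (0:ℝ) < d := by exact_mod_cast hd
  have hn0 : (0:ℝ) < n := by exact_mod_cast hn
  have hnn : ∀ i j, 0 ≤ 4 * (d:ℝ) ^ 2 / (n:ℝ) ^ 2 * ((x i j : ℝ) - (n:ℝ) / d) ^ 2 := fun i j => by
    positivity
  unfold beta
  split_ifs with h
  · obtain ⟨i, j, hij⟩ := h
    have h1 : 1 ≤ 4 * (d:ℝ) ^ 2 / (n:ℝ) ^ 2 * ((x i j : ℝ) - (n:ℝ) / d) ^ 2 := by
      have h2 : (n:ℝ) / (2 * d) ≤ (n:ℝ) / d - x i j := by
        have h3 : (x i j : ℝ) < (n:ℝ) / (2 * d) := by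
          rw [lt_div_iff₀ (by positivity)]
          linarith
        have h4 : (n:ℝ) / d = (n:ℝ) / (2 * d) + (n:ℝ) / (2 * d) := by
          field_simp
          ring
        linarith
      have h5 : ((n:ℝ) / (2 * d)) ^ 2 ≤ ((x i j : ℝ) - (n:ℝ) / d) ^ 2 := by
        have h6 : ((x i j : ℝ) - (n:ℝ) / d) ^ 2 = ((n:ℝ) / d - x i j) ^ 2 := by ring
        rw [h6]
        exact pow_le_pow_left₀ (by positivity) h2 2
      calc (1:ℝ) = 4 * (d:ℝ) ^ 2 / (n:ℝ) ^ 2 * ((n:ℝ) / (2 * d)) ^ 2 := by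
            field_simp
            ring
        _ ≤ _ := mul_le_mul_of_nonneg_left h5 (by positivity)
    refine h1.trans ?_
    refine le_trans ?_ (single_le_sum (f := fun i => ∑ j, 4 * (d:ℝ) ^ 2 / (n:ℝ) ^ 2 *
      ((x i j : ℝ) - (n:ℝ) / d) ^ 2) (fun i _ => sum_nonneg fun j _ => hnn i j) (mem_univ i))
    exact single_le_sum (f := fun j => 4 * (d:ℝ) ^ 2 / (n:ℝ) ^ 2 *
      ((x i j : ℝ) - (n:ℝ) / d) ^ 2) (fun j _ => hnn i j) (mem_univ j)
  · exact sum_nonneg fun i _ => sum_nonneg fun j _ => hnn i j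

open Classical in
theorem beta_sum (hsv : S_STATVAR) {d n : ℕ} (hd : 1 ≤ d) (hn : 1 ≤ n) :
    ∑ c ∈ univ.filter (fun c : Ball d n → Fin d => Bal c), beta d n (cnt c Prod.fst) ≤
      4 * (d:ℝ) ^ 4 / n * ((univ.filter (fun c : Ball d n → Fin d => Bal c)).card : ℝ) := by
  have hd0 : (0:ℝ) < d := by exact_mod_cast hd
  have hn0 : (0:ℝ) < n := by exact_mod_cast hn
  refine (sum_le_sum fun c _ => beta_le hd hn (cnt c Prod.fst)).trans ?_
  rw [sum_comm]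
  have h1 : ∀ i : Fin d, ∑ c ∈ univ.filter (fun c : Ball d n → Fin d => Bal c), ∑ j,
      4 * (d:ℝ) ^ 2 / (n:ℝ) ^ 2 * ((cnt c Prod.fst i j : ℝ) - (n:ℝ) / d) ^ 2 ≤
      ∑ _j : Fin d, 4 * (d:ℝ) ^ 2 / (n:ℝ) ^ 2 * ((n:ℝ) *
        ((univ.filter (fun c : Ball d n → Fin d => Bal c)).card : ℝ)) := by
    intro i
    rw [sum_comm]
    refine sum_le_sum fun j _ => ?_
    rw [← mul_sum]
    exact mul_le_mul_of_nonneg_left (hsv d n hd hn i j) (by positivity)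
  refine (sum_le_sum fun i _ => h1 i).trans (le_of_eq ?_)
  simp only [sum_const, card_univ, Fintype.card_fin, nsmul_eq_mul]
  field_simp

theorem core (h1 : S_A1) (h2 : S_A2) (h4 : S_A4) (h5 : S_A5) (hsv : S_STATVAR) (hi : S_ITER)
    {d n k : ℕ} {μ : Equiv.Perm (Fin d) → ℝ} (hμ : IsProb μ) (hkn : k ≤ n) (hd : 1 ≤ d)
    (hn : 1 ≤ n) (m0 r b : ℕ) (ρ C Lc ν : ℝ) (hρ0 : 0 ≤ ρ) (hρ1 : ρ < 1) (hC : 0 ≤ C)
    (hLc : 0 ≤ Lc) (hν : 0 ≤ ν)
    (H1 : ∀ c c' : Ball d n → Fin d, Bal c → Bal c' →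
      (dif c c' : ℝ) ≤ ell (cnt c Prod.fst) (cnt c' Prod.fst) →
      E μ k m0 (fun u => ell (cnt c u) (cnt c' u)) ≤
        ρ * ell (cnt c Prod.fst) (cnt c' Prod.fst) + C)
    (H2 : ∀ c c' : Ball d n → Fin d, Bal c → Bal c' →
      (∀ i j, (n : ℝ) ≤ 2 * d * cnt c' Prod.fst i j) →
      ∀ f : (Fin d → Fin d → ℕ) → ℝ, (∀ x, 0 ≤ f x ∧ f x ≤ 1) →
      |E μ k r (fun u => f (cnt c u)) - E μ k r (fun u => f (cnt c' u))| ≤
        Lc * ell (cnt c Prod.fst) (cnt c' Prod.fst) + ν)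
    (s : ℕ) (c : Ball d n → Fin d) (hc : Bal c) (F : Set (Fin d → Fin d → ℕ)) :
    |E μ k (s + (b * m0 + r)) (fun u => F.indicator (fun _ => (1 : ℝ)) (cnt c u)) - stat d n F| ≤
      Lc * (ρ ^ b * ((d:ℝ) ^ 3 * n) + C / (1 - ρ)) + ν + 4 * (d:ℝ) ^ 4 / n := by
  classical
  have hn0 : (0:ℝ) < n := by exact_mod_cast hn
  obtain ⟨f, hf⟩ : ∃ f : (Fin d → Fin d → ℕ) → ℝ, f = F.indicator (fun _ => (1:ℝ)) := ⟨_, rfl⟩
  have hf01 : ∀ x, 0 ≤ f x ∧ f x ≤ 1 := by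
    intro x
    rw [hf]
    by_cases hx : x ∈ F
    · rw [Set.indicator_of_mem hx]
      norm_num
    · rw [Set.indicator_of_notMem hx]
      norm_num
  have hit := hi d n k μ hμ hkn m0 r ρ C Lc ν f (beta d n) hρ0 hρ1 hC hLc hν (beta_nonneg d n) H1
    (by
      intro c c' hc hc'
      by_cases hb : ∃ i j, 2 * (d:ℝ) * cnt c' Prod.fst i j < n
      · have hbe : beta d n (cnt c' Prod.fst) = 1 := by
          unfold beta
          rw [if_pos hb]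
        rw [hbe]
        have e1 := E_mem h1 hμ hkn r (fun u => f (cnt c u)) (fun u => hf01 _)
        have e2 := E_mem h1 hμ hkn r (fun u => f (cnt c' u)) (fun u => hf01 _)
        have e3 : 0 ≤ Lc * ell (cnt c Prod.fst) (cnt c' Prod.fst) :=
          mul_nonneg hLc (sum_nonneg fun _ _ => sum_nonneg fun _ _ => abs_nonneg _)
        rw [abs_le]
        constructor <;> linarith [e1.1, e1.2, e2.1, e2.2]
      · have hbe : beta d n (cnt c' Prod.fst) = 0 := by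
          unfold beta
          rw [if_neg hb]
        rw [hbe, add_zero]
        push Not at hb
        exact H2 c c' hc hc' hb f hf01)
  have hLρ : 0 ≤ Lc * ρ ^ b := mul_nonneg hLc (pow_nonneg hρ0 b)
  have step1 : ∀ c : Ball d n → Fin d, Bal c →
      |E μ k (b * m0 + r) (fun u => f (cnt c u)) - stat d n F| ≤
      Lc * (ρ ^ b * ((d:ℝ) ^ 3 * n) + C / (1 - ρ)) + ν + 4 * (d:ℝ) ^ 4 / n := by
    intro c hc
    obtain ⟨B, hB⟩ : ∃ B, B = univ.filter (fun c : Ball d n → Fin d => Bal c) := ⟨_, rfl⟩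
    have hcB : c ∈ B := by
      rw [hB]
      exact mem_filter.2 ⟨mem_univ _, hc⟩
    have hBpos : 0 < (B.card : ℝ) := by
      exact_mod_cast card_pos.2 ⟨c, hcB⟩
    have e1 : ∑ c' ∈ B, E μ k (b * m0 + r) (fun u => f (cnt c' u)) =
        ∑ c' ∈ B, f (cnt c' Prod.fst) := by
      rw [hB]
      exact h5 d n k μ hμ hkn (b * m0 + r) f
    have e2 : stat d n F = (∑ c' ∈ B, f (cnt c' Prod.fst)) / (B.card : ℝ) := by
      rw [hB, hf]
      rfl
    have e3 : E μ k (b * m0 + r) (fun u => f (cnt c u)) - stat d n F =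
        (∑ c' ∈ B, (E μ k (b * m0 + r) (fun u => f (cnt c u)) -
          E μ k (b * m0 + r) (fun u => f (cnt c' u)))) / (B.card : ℝ) := by
      rw [e2, ← e1, sum_sub_distrib, sum_const, nsmul_eq_mul]
      field_simp
    rw [e3, abs_div, abs_of_pos hBpos, div_le_iff₀ hBpos]
    refine (abs_sum_le_sum_abs _ _).trans ?_
    have e4 : ∀ c' ∈ B, |E μ k (b * m0 + r) (fun u => f (cnt c u)) -
        E μ k (b * m0 + r) (fun u => f (cnt c' u))| ≤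
        (Lc * (ρ ^ b * ((d:ℝ) ^ 3 * n) + C / (1 - ρ)) + ν) +
          E μ k (b * m0) (fun u => beta d n (cnt c' u)) := by
      intro c' hc'
      have hbc' : Bal c' := by
        rw [hB] at hc'
        exact (mem_filter.1 hc').2
      refine (hit b c c' hc hbc').trans ?_
      have e5 := mul_le_mul_of_nonneg_left (ell_le c c') hLρ
      have e6 : Lc * (ρ ^ b * ell (cnt c Prod.fst) (cnt c' Prod.fst) + C / (1 - ρ)) ≤
          Lc * (ρ ^ b * ((d:ℝ) ^ 3 * n) + C / (1 - ρ)) := by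
        rw [mul_add, mul_add, ← mul_assoc, ← mul_assoc]
        linarith
      linarith
    refine (sum_le_sum e4).trans ?_
    rw [sum_add_distrib, sum_const, nsmul_eq_mul]
    have e7 : ∑ c' ∈ B, E μ k (b * m0) (fun u => beta d n (cnt c' u)) ≤
        4 * (d:ℝ) ^ 4 / n * (B.card : ℝ) := by
      have e8 : ∑ c' ∈ B, E μ k (b * m0) (fun u => beta d n (cnt c' u)) =
          ∑ c' ∈ B, beta d n (cnt c' Prod.fst) := by
        rw [hB]
        exact h5 d n k μ hμ hkn (b * m0) (beta d n)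
      rw [e8, hB]
      exact beta_sum hsv hd hn
    nlinarith
  -- all later times
  have hR : 0 ≤ Lc * (ρ ^ b * ((d:ℝ) ^ 3 * n) + C / (1 - ρ)) + ν + 4 * (d:ℝ) ^ 4 / n := by
    have : 0 < 1 - ρ := by linarith
    positivity
  obtain ⟨g, hg⟩ : ∃ g : (Fin d → Fin d → ℕ) → ℝ, g = fun x =>
      if h : ∃ c' : Ball d n → Fin d, Bal c' ∧ cnt c' Prod.fst = x then
        E μ k (b * m0 + r) (fun u => f (cnt h.choose u)) else stat d n F := ⟨_, rfl⟩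
  have hgx : ∀ x, |g x - stat d n F| ≤
      Lc * (ρ ^ b * ((d:ℝ) ^ 3 * n) + C / (1 - ρ)) + ν + 4 * (d:ℝ) ^ 4 / n := by
    intro x
    rw [hg]
    simp only
    split_ifs with h
    · exact step1 _ h.choose_spec.1
    · rw [sub_self, abs_zero]
      exact hR
  have hgc : ∀ c' : Ball d n → Fin d, Bal c' →
      g (cnt c' Prod.fst) = E μ k (b * m0 + r) (fun u => f (cnt c' u)) := by
    intro c' hc'
    have h : ∃ c'' : Ball d n → Fin d, Bal c'' ∧ cnt c'' Prod.fst = cnt c' Prod.fst :=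
      ⟨c', hc', rfl⟩
    rw [hg]
    simp only
    rw [dif_pos h]
    exact (h2 d n k μ (b * m0 + r)).2 f _ _ h.choose_spec.2
  have key := h4 d n k μ hμ hkn s (b * m0 + r) f g hgc c hc
  rw [← hf, key]
  exact E_close h1 hμ hkn s _ _ _ fun u => hgx _

end BKU

open BKU in
theorem bk_upper (h1 : S_A1) (h2 : S_A2) (h4 : S_A4) (h5 : S_A5) (hsv : S_STATVAR) (hg : S_GAP)
    (hc : S_CONTR) (hs : S_SMOOTH) (hi : S_ITER) : S_UPPER := by
  intro d μ hd hμ hirr k hk hk0 η ε hη hη1 hε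
  obtain ⟨hγ, -⟩ := hg d μ hd hμ hirr
  obtain ⟨γ, hγe⟩ : ∃ γ, γ = gap μ := ⟨_, rfl⟩
  rw [← hγe] at hγ
  obtain ⟨T, δ1, C1, hT, hδ1, hC1, HC⟩ := hc d μ hd hμ hirr (γ * η / 16) (by positivity)
  rw [← hγe] at HC
  obtain ⟨C2, δ2, hC2, hδ2, HS⟩ := hs d μ hd hμ hirr
  obtain ⟨a, ha⟩ : ∃ a, a = γ - γ * η / 16 := ⟨_, rfl⟩
  rw [← ha] at HC
  have hT0 : 0 < T := by linarith
  have ha0 : 0 < a := by
    rw [ha]
    nlinarith
  obtain ⟨ρ, hρ⟩ : ∃ ρ, ρ = Real.exp (-a * T) := ⟨_, rfl⟩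
  have hρ0 : 0 < ρ := by
    rw [hρ]
    exact Real.exp_pos _
  have hρ1 : ρ < 1 := by
    rw [hρ, Real.exp_lt_one_iff]
    nlinarith [mul_pos ha0 hT0]
  rw [← hρ] at HC
  obtain ⟨b, hb⟩ : ∃ b : ℕ → ℕ, b = fun n : ℕ => ⌈(1 / 2 + η / 16) * Real.log n / (a * T)⌉₊ :=
    ⟨_, rfl⟩
  have hbρ : ∀ n : ℕ, 1 ≤ n → ρ ^ (b n) ≤ (n:ℝ) ^ (-(1 / 2 + η / 16)) := by
    intro n hn
    have hn0 : (0:ℝ) < n := by exact_mod_cast hn
    rw [hρ, ← Real.exp_nat_mul, Real.rpow_def_of_pos hn0]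
    apply Real.exp_le_exp.2
    have h3 : (1 / 2 + η / 16) * Real.log n / (a * T) ≤ (b n : ℝ) := by
      rw [hb]
      exact Nat.le_ceil _
    rw [div_le_iff₀ (mul_pos ha0 hT0)] at h3
    nlinarith
  -- limits
  have hlim : Tendsto (fun n : ℕ => C2 * (d:ℝ) ^ 3 * (n:ℝ) ^ (-(η / 16)) +
      C2 * (C1 / (1 - ρ)) * (n:ℝ) ^ (-(1 / 2 : ℝ)) + C2 * ((k n : ℝ) / n + 1 / n) +
      4 * (d:ℝ) ^ 4 * (1 / n)) atTop (𝓝 0) := by
    have l1 : Tendsto (fun n : ℕ => (n:ℝ) ^ (-(η / 16))) atTop (𝓝 0) :=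
      (tendsto_rpow_neg_atTop (by positivity)).comp tendsto_natCast_atTop_atTop
    have l2 : Tendsto (fun n : ℕ => (n:ℝ) ^ (-(1 / 2 : ℝ))) atTop (𝓝 0) :=
      (tendsto_rpow_neg_atTop (by norm_num)).comp tendsto_natCast_atTop_atTop
    have l3 : Tendsto (fun n : ℕ => (1:ℝ) / n) atTop (𝓝 0) := tendsto_one_div_atTop_nhds_zero_nat
    have l4 := (((l1.const_mul (C2 * (d:ℝ) ^ 3)).add (l2.const_mul (C2 * (C1 / (1 - ρ))))).add
      ((hk0.add l3).const_mul C2)).add (l3.const_mul (4 * (d:ℝ) ^ 4))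
    simpa using l4
  have hlog : Tendsto (fun n : ℕ => Real.log n) atTop atTop :=
    Real.tendsto_log_atTop.comp tendsto_natCast_atTop_atTop
  filter_upwards [eventually_ge_atTop 1, hk0.eventually_lt_const hδ1, hk0.eventually_lt_const hδ2,
    hlog.eventually_ge_atTop (4 * γ * (T + 1) / η), hlim.eventually_le_const hε] with
    n hn hkδ1 hkδ2 hln hRn m hm c hcB F
  have hn0 : (0:ℝ) < n := by exact_mod_cast hn
  obtain ⟨hk1, hkn⟩ := hk n hn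
  have hk0' : (0:ℝ) < k n := by exact_mod_cast hk1
  have hδ : 0 < (k n : ℝ) / n := by positivity
  obtain ⟨δ, hδe⟩ : ∃ δ, δ = (k n : ℝ) / n := ⟨_, rfl⟩
  rw [← hδe] at hδ
  have hlog0 : 0 < Real.log n := by
    refine lt_of_lt_of_le ?_ hln
    positivity
  -- the time
  have htime : b n * ⌊T / δ⌋₊ + ⌊1 / δ⌋₊ ≤ m := by
    have t1 : ((⌊T / δ⌋₊ : ℕ) : ℝ) ≤ T / δ := Nat.floor_le (by positivity)
    have t2 : ((⌊1 / δ⌋₊ : ℕ) : ℝ) ≤ 1 / δ := Nat.floor_le (by positivity)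
    have t3 : (b n : ℝ) ≤ (1 / 2 + η / 16) * Real.log n / (a * T) + 1 := by
      rw [hb]
      exact (Nat.ceil_lt_add_one (by positivity)).le
    have t4 : ((b n * ⌊T / δ⌋₊ + ⌊1 / δ⌋₊ : ℕ) : ℝ) ≤
        ((1 / 2 + η / 16) * Real.log n / (a * T) + 1) * (T / δ) + 1 / δ := by
      push_cast
      have := mul_le_mul t3 t1 (Nat.cast_nonneg _) (by positivity)
      linarith
    have t5 : ((1 / 2 + η / 16) * Real.log n / (a * T) + 1) * (T / δ) + 1 / δ =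
        ((1 / 2 + η / 16) * Real.log n / a + (T + 1)) / δ := by
      field_simp
      ring
    have t6 : (1 / 2 + η / 16) * Real.log n / a ≤ (1 + η / 2) * Real.log n / (2 * γ) := by
      rw [div_le_div_iff₀ ha0 (by positivity)]
      have t7 : (1 / 2 + η / 16) * (2 * γ) ≤ (1 + η / 2) * a := by
        rw [ha]
        have : (1 + η / 2) * (γ - γ * η / 16) - (1 / 2 + η / 16) * (2 * γ) =
            γ * η * (5 / 16 - η / 32) := by ring
        have h8 : 0 ≤ γ * η * (5 / 16 - η / 32) := by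
          have : 0 ≤ 5 / 16 - η / 32 := by linarith
          positivity
        linarith
      nlinarith
    have t8 : T + 1 ≤ (η / 2) * Real.log n / (2 * γ) := by
      rw [div_le_iff₀ hη] at hln
      rw [le_div_iff₀ (by positivity)]
      linarith
    have t9 : ((1 / 2 + η / 16) * Real.log n / a + (T + 1)) / δ ≤
        (1 + η) * (n * Real.log n / (2 * k n * gap μ)) := by
      rw [← hγe]
      have t10 : (1 + η) * (n * Real.log n / (2 * k n * γ)) =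
          ((1 + η / 2) * Real.log n / (2 * γ) + (η / 2) * Real.log n / (2 * γ)) / δ := by
        rw [hδe]
        field_simp
        ring
      rw [t10]
      exact div_le_div_of_nonneg_right (add_le_add t6 t8) hδ.le
    have t11 : ((b n * ⌊T / δ⌋₊ + ⌊1 / δ⌋₊ : ℕ) : ℝ) ≤ (m : ℝ) := by
      rw [t5] at t4
      exact t4.trans (t9.trans hm)
    exact_mod_cast t11
  obtain ⟨s, hs'⟩ := Nat.exists_eq_add_of_le' htime
  rw [hs']
  have hsq : 0 < √(n:ℝ) := Real.sqrt_pos.2 hn0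
  have hcore := core h1 h2 h4 h5 hsv hi hμ hkn (by omega : 1 ≤ d) hn ⌊T / δ⌋₊ ⌊1 / δ⌋₊ (b n) ρ C1
    (C2 / √(n:ℝ)) (C2 * (δ + 1 / n)) hρ0.le hρ1 hC1.le (by positivity) (by positivity)
    (by
      intro c c' hc hc' hdif
      have := HC n (k n) hk1 hkn hkδ1 c c' hc hc' hdif
      rw [← hδe] at this
      exact this)
    (by
      intro c c' hc hc' hcnt f hf
      have := HS n (k n) hk1 hkn hkδ2 c c' hc hc' hcnt f hf
      rw [← hδe] at this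
      refine this.trans (le_of_eq ?_)
      ring)
    s c hcB F
  refine hcore.trans (le_trans ?_ hRn)
  have r1 : C2 / √(n:ℝ) * (ρ ^ (b n) * ((d:ℝ) ^ 3 * n) + C1 / (1 - ρ)) ≤
      C2 * (d:ℝ) ^ 3 * (n:ℝ) ^ (-(η / 16)) + C2 * (C1 / (1 - ρ)) * (n:ℝ) ^ (-(1 / 2 : ℝ)) := by
    have r2 : 1 / √(n:ℝ) = (n:ℝ) ^ (-(1 / 2 : ℝ)) := by
      rw [Real.sqrt_eq_rpow, Real.rpow_neg hn0.le, one_div]
    have r3 : C2 / √(n:ℝ) * (ρ ^ (b n) * ((d:ℝ) ^ 3 * n) + C1 / (1 - ρ)) =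
        C2 * (d:ℝ) ^ 3 * (ρ ^ (b n) * ((1 / √(n:ℝ)) * n)) + C2 * (C1 / (1 - ρ)) * (1 / √(n:ℝ)) := by
      ring
    rw [r3, r2]
    have r4 : (n:ℝ) ^ (-(1 / 2 : ℝ)) * n = (n:ℝ) ^ (1 / 2 : ℝ) := by
      nth_rw 2 [← Real.rpow_one (n:ℝ)]
      rw [← Real.rpow_add hn0]
      norm_num
    have r5 : ρ ^ (b n) * ((n:ℝ) ^ (-(1 / 2 : ℝ)) * n) ≤ (n:ℝ) ^ (-(η / 16)) := by
      rw [r4]
      calc ρ ^ (b n) * (n:ℝ) ^ (1 / 2 : ℝ) ≤ (n:ℝ) ^ (-(1 / 2 + η / 16)) * (n:ℝ) ^ (1 / 2 : ℝ) :=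
            mul_le_mul_of_nonneg_right (hbρ n hn) (by positivity)
        _ = (n:ℝ) ^ (-(η / 16)) := by
            rw [← Real.rpow_add hn0]
            congr 1
            ring
    have r6 : 0 ≤ C2 * (d:ℝ) ^ 3 := by positivity
    have := mul_le_mul_of_nonneg_left r5 r6
    linarith
  have r7 : 4 * (d:ℝ) ^ 4 / n = 4 * (d:ℝ) ^ 4 * (1 / n) := by ring
  rw [r7, hδe]
  linarith

end Pool.Agent.H597
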