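import Pool.Agent.H646.CR.Stm

/-! Project CR (helper646), job S_coup, by helper597: existence of the coupling. -/

set_option autoImplicit false

namespace H597.CR

open MeasureTheory ProbabilityTheory Set
open scoped ENNReal

section gen

variable {α Ω : Type} [MeasurableSpace α] [MeasurableSpace Ω] [StandardBorelSpace Ω] [Nonempty Ω]

/-- transport of the conditional kernel -/
lemma base (ρ : Measure (α × Ω)) [IsFiniteMeasure ρ] {σ σ' : α → α} {τ : Ω → Ω} {U U' : Set Ω}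
    (hσ : Measurable σ) (hσ' : Measurable σ') (hσσ : ∀ x, σ' (σ x) = x)
    (hτ : Measurable τ) (hU : MeasurableSet U)
    (hU' : MeasurableSet U') (hν : ρ.fst.map σ = ρ.fst)
    (hinv : ∀ D : Set (α × Ω), MeasurableSet D →
      ρ ({ω | ω.2 ∈ U} ∩ (fun ω : α × Ω => (σ ω.1, τ ω.2)) ⁻¹' D) = ρ ({ω | ω.2 ∈ U'} ∩ D)) :
    ∀ᵐ x ∂ρ.fst, ((ρ.condKernel x).restrict U).map τ = (ρ.condKernel (σ x)).restrict U' := by
  have key : (fun x => ((ρ.condKernel.restrict hU).map τ) x) =ᵐ[ρ.fst]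
      (fun x => ((ρ.condKernel.restrict hU').comap σ hσ) x) := by
    apply Kernel.ae_eq_of_compProd_eq
    ext D hD
    rw [Measure.compProd_apply hD, Measure.compProd_apply hD]
    have hD' : MeasurableSet {ω : α × Ω | (σ' ω.1, ω.2) ∈ D} :=
      ((hσ'.comp measurable_fst).prodMk measurable_snd) hD
    have h1 : ∫⁻ a, ((ρ.condKernel.restrict hU).map τ) a (Prod.mk a ⁻¹' D) ∂ρ.fst
        = ρ ({ω | ω.2 ∈ U} ∩ (fun ω : α × Ω => (σ ω.1, τ ω.2)) ⁻¹'
          {ω : α × Ω | (σ' ω.1, ω.2) ∈ D}) := by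
      have hm : MeasurableSet ({ω : α × Ω | ω.2 ∈ U} ∩ (fun ω : α × Ω => (σ ω.1, τ ω.2)) ⁻¹'
          {ω : α × Ω | (σ' ω.1, ω.2) ∈ D}) :=
        (measurable_snd hU).inter
          (((hσ.comp measurable_fst).prodMk (hτ.comp measurable_snd)) hD')
      conv_rhs => rw [← ρ.disintegrate ρ.condKernel]
      rw [Measure.compProd_apply hm]
      refine lintegral_congr fun a => ?_
      rw [Kernel.map_apply' _ hτ _ (measurable_prodMk_left hD), Kernel.restrict_apply,
        Measure.restrict_apply (hτ (measurable_prodMk_left hD))]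
      congr 1
      ext w
      simp only [mem_inter_iff, mem_preimage, mem_ofPred_eq, hσσ]
      tauto
    have h2 : ∫⁻ a, ((ρ.condKernel.restrict hU').comap σ hσ) a (Prod.mk a ⁻¹' D) ∂ρ.fst
        = ρ ({ω | ω.2 ∈ U'} ∩ {ω : α × Ω | (σ' ω.1, ω.2) ∈ D}) := by
      have hm : MeasurableSet ({ω : α × Ω | ω.2 ∈ U'} ∩ {ω : α × Ω | (σ' ω.1, ω.2) ∈ D}) :=
        (measurable_snd hU').inter hD'
      conv_rhs => rw [← ρ.disintegrate ρ.condKernel]
      rw [Measure.compProd_apply hm]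
      conv_rhs => rw [← hν]
      rw [lintegral_map (Kernel.measurable_kernel_prodMk_left hm) hσ]
      refine lintegral_congr fun a => ?_
      rw [Kernel.comap_apply, Kernel.restrict_apply,
        Measure.restrict_apply (measurable_prodMk_left hD)]
      congr 1
      ext w
      simp only [mem_inter_iff, mem_preimage, mem_ofPred_eq, hσσ]
      tauto
    rw [h1, h2, hinv _ hD']
  filter_upwards [key] with x hx
  rw [Kernel.map_apply _ hτ, Kernel.restrict_apply, Kernel.comap_apply, Kernel.restrict_apply]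
    at hx
  exact hx

/-- the coupling measure -/
noncomputable def cpl (ρ ρ' : Measure (α × Ω)) [IsFiniteMeasure ρ] [IsFiniteMeasure ρ'] :
    Measure (α × (Ω × Ω)) := ρ.fst ⊗ₘ (ρ.condKernel ×ₖ ρ'.condKernel)

lemma cpl_fst (ρ ρ' : Measure (α × Ω)) [IsFiniteMeasure ρ] [IsFiniteMeasure ρ'] :
    (cpl ρ ρ').map (fun ω => (ω.1, ω.2.1)) = ρ := by
  have h := Measure.compProd_map (μ := ρ.fst) (κ := ρ.condKernel ×ₖ ρ'.condKernel)
    (f := Prod.fst) measurable_fst
  have h2 : (ρ.condKernel ×ₖ ρ'.condKernel).map Prod.fst = ρ.condKernel := by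
    rw [← Kernel.fst_eq, Kernel.fst_prod]
  rw [h2, ρ.disintegrate] at h
  exact h.symm

lemma cpl_snd (ρ ρ' : Measure (α × Ω)) [IsFiniteMeasure ρ] [IsFiniteMeasure ρ']
    (hf : ρ.fst = ρ'.fst) :
    (cpl ρ ρ').map (fun ω => (ω.1, ω.2.2)) = ρ' := by
  have h := Measure.compProd_map (μ := ρ.fst) (κ := ρ.condKernel ×ₖ ρ'.condKernel)
    (f := Prod.snd) measurable_snd
  have h2 : (ρ.condKernel ×ₖ ρ'.condKernel).map Prod.snd = ρ'.condKernel := by
    rw [← Kernel.snd_eq, Kernel.snd_prod]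
  rw [h2, hf, ρ'.disintegrate] at h
  unfold cpl
  rw [hf]
  exact h.symm

lemma cpl_inv (ρ ρ' : Measure (α × Ω)) [IsFiniteMeasure ρ] [IsFiniteMeasure ρ']
    (hf : ρ.fst = ρ'.fst) {σ σ' : α → α} {τ : Ω → Ω} {U U' : Set Ω}
    (hσ : Measurable σ) (hσ' : Measurable σ') (hσσ : ∀ x, σ' (σ x) = x)
    (hτ : Measurable τ) (hU : MeasurableSet U)
    (hU' : MeasurableSet U') (hν : ρ.fst.map σ = ρ.fst)
    (hinv : ∀ D : Set (α × Ω), MeasurableSet D →
      ρ ({ω | ω.2 ∈ U} ∩ (fun ω : α × Ω => (σ ω.1, τ ω.2)) ⁻¹' D) = ρ ({ω | ω.2 ∈ U'} ∩ D))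
    (hinv' : ∀ D : Set (α × Ω), MeasurableSet D →
      ρ' ({ω | ω.2 ∈ U} ∩ (fun ω : α × Ω => (σ ω.1, τ ω.2)) ⁻¹' D) = ρ' ({ω | ω.2 ∈ U'} ∩ D))
    (D : Set (α × (Ω × Ω))) (hD : MeasurableSet D) :
    cpl ρ ρ' ({ω | ω.2.1 ∈ U ∧ ω.2.2 ∈ U} ∩
        (fun ω : α × (Ω × Ω) => (σ ω.1, (τ ω.2.1, τ ω.2.2))) ⁻¹' D) =
      cpl ρ ρ' ({ω | ω.2.1 ∈ U' ∧ ω.2.2 ∈ U'} ∩ D) := by
  have hb := base ρ hσ hσ' hσσ hτ hU hU' hν hinv
  have hb' := base ρ' hσ hσ' hσσ hτ hU hU' (hf ▸ hν) hinv'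
  rw [← hf] at hb'
  have hm2 : Measurable (fun ω : α × (Ω × Ω) => ω.2.1) := measurable_fst.comp measurable_snd
  have hm3 : Measurable (fun ω : α × (Ω × Ω) => ω.2.2) := measurable_snd.comp measurable_snd
  have hm : MeasurableSet ({ω : α × (Ω × Ω) | ω.2.1 ∈ U ∧ ω.2.2 ∈ U} ∩
        (fun ω : α × (Ω × Ω) => (σ ω.1, (τ ω.2.1, τ ω.2.2))) ⁻¹' D) :=
    ((hm2 hU).inter (hm3 hU)).inter
      (((hσ.comp measurable_fst).prodMk ((hτ.comp hm2).prodMk (hτ.comp hm3))) hD)
  have hm' : MeasurableSet ({ω : α × (Ω × Ω) | ω.2.1 ∈ U' ∧ ω.2.2 ∈ U'} ∩ D) :=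
    ((hm2 hU').inter (hm3 hU')).inter hD
  unfold cpl
  rw [Measure.compProd_apply hm, Measure.compProd_apply hm']
  conv_rhs => rw [← hν]
  rw [lintegral_map (Kernel.measurable_kernel_prodMk_left hm') hσ]
  refine lintegral_congr_ae ?_
  filter_upwards [hb, hb'] with x hx hx'
  rw [Kernel.prod_apply, Kernel.prod_apply]
  have hDx : MeasurableSet (Prod.mk (σ x) ⁻¹' D) := measurable_prodMk_left hD
  have e1 : (Prod.mk x ⁻¹' ({ω : α × (Ω × Ω) | ω.2.1 ∈ U ∧ ω.2.2 ∈ U} ∩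
        (fun ω : α × (Ω × Ω) => (σ ω.1, (τ ω.2.1, τ ω.2.2))) ⁻¹' D)) =
      (Prod.map τ τ ⁻¹' (Prod.mk (σ x) ⁻¹' D)) ∩ (U ×ˢ U) := by
    ext w
    simp only [mem_inter_iff, mem_preimage, mem_ofPred_eq, mem_prod, Prod.map]
    tauto
  have e2 : (Prod.mk (σ x) ⁻¹' ({ω : α × (Ω × Ω) | ω.2.1 ∈ U' ∧ ω.2.2 ∈ U'} ∩ D)) =
      (Prod.mk (σ x) ⁻¹' D) ∩ (U' ×ˢ U') := by
    ext w
    simp only [mem_inter_iff, mem_preimage, mem_ofPred_eq, mem_prod]
    tauto
  rw [e1, e2, ← Measure.restrict_apply ((hτ.prodMap hτ) hDx), ← Measure.restrict_apply hDx,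
    ← Measure.prod_restrict, ← Measure.prod_restrict, ← hx, ← hx',
    Measure.map_prod_map _ _ hτ hτ, Measure.map_apply (hτ.prodMap hτ) hDx]

end gen

open Pool.Agent.H646.CR TopologicalSpace in
theorem holds : Pool.Agent.H646.CR.S_coup := by
  intro G K _ _ _ _ _ _ _ _ _ η η' hη hη' hfst hν
  have : PolishSpace K := by
    let := metrizableSpaceMetric K
    infer_instance
  have : StandardBorelSpace K := inferInstance
  have : BorelSpace (P × K) := inferInstance
  have : StandardBorelSpace ((P × K) × Lab G) := inferInstance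
  have := hη.prob
  have := hη'.prob
  have : Nonempty (St G K) := by
    by_contra h
    rw [not_nonempty_iff] at h
    have h1 : η univ = 1 := measure_univ
    rw [univ_eq_empty_iff.2 h, measure_empty] at h1
    exact zero_ne_one h1
  have : Nonempty ((P × K) × Lab G) := (inferInstance : Nonempty (St G K)).map Prod.snd
  have hf : η.fst = η'.fst := hfst
  have hmf : Measurable (fun ω : Cp G K => ((ω.1, ω.2.1) : St G K)) :=
    measurable_fst.prodMk (measurable_fst.comp measurable_snd)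
  have hms : Measurable (fun ω : Cp G K => ((ω.1, ω.2.2) : St G K)) :=
    measurable_fst.prodMk (measurable_snd.comp measurable_snd)
  have e1 := cpl_fst η η'
  have e2 := cpl_snd η η' hf
  have hlab : ∀ g u : G, Measurable fun w : (P × K) × Lab G => w.2 g u := fun g u =>
    (measurable_pi_apply u).comp ((measurable_pi_apply g).comp measurable_snd)
  have hU : ∀ g u : G, MeasurableSet {w : (P × K) × Lab G | w.2 g u = true} := fun g u =>
    hlab g u (measurableSet_singleton true)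
  have hU0 : ∀ g u : G, MeasurableSet {w : (P × K) × Lab G | w.2 g u = false} := fun g u =>
    hlab g u (measurableSet_singleton false)
  have pull1 : ∀ S : Set ((P × K) × Lab G), MeasurableSet S →
      cpl η η' {ω | ω.2.1 ∈ S} = η {ω | ω.2 ∈ S} := by
    intro S hS
    conv_rhs => rw [← e1]
    exact (Measure.map_apply hmf (measurable_snd hS)).symm
  have pull2 : ∀ S : Set ((P × K) × Lab G), MeasurableSet S →
      cpl η η' {ω | ω.2.2 ∈ S} = η' {ω | ω.2 ∈ S} := by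
    intro S hS
    conv_rhs => rw [← e2]
    exact (Measure.map_apply hms (measurable_snd hS)).symm
  refine ⟨cpl η η', ⟨?_, ?_, ?_, ?_, ?_, ?_⟩, e1, e2⟩
  · constructor
    have h1 := pull1 univ MeasurableSet.univ
    have h2 : ({ω | ω.2.1 ∈ (univ : Set ((P × K) × Lab G))} : Set (Cp G K)) = univ := by
      ext; simp
    have h3 : ({ω | ω.2 ∈ (univ : Set ((P × K) × Lab G))} : Set (St G K)) = univ := by
      ext; simp
    rw [h2, h3] at h1
    rw [h1, measure_univ]
  · exact (pull1 _ (hU0 1 1)).trans hη.lab_one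
  · exact (pull2 _ (hU0 1 1)).trans hη'.lab_one
  · intro g u w huw
    exact (pull1 _ ((hU g u).inter (hU g w))).trans (hη.lab_uniq g u w huw)
  · intro g u w huw
    exact (pull2 _ ((hU g u).inter (hU g w))).trans (hη'.lab_uniq g u w huw)
  · intro g u D hD
    have hs : ∀ u : G, Measurable fun x : P × K => u • x := fun u =>
      (continuous_const_smul u).measurable
    have hτ : Measurable fun w : (P × K) × Lab G => (g • w.1, shL g u w.2) := by
      refine ((hs g).comp measurable_fst).prodMk ?_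
      refine measurable_pi_iff.2 fun h => measurable_pi_iff.2 fun v => ?_
      exact hlab (h * g) (v * u)
    exact cpl_inv η η' hf (σ := fun x => u • x) (σ' := fun x => u⁻¹ • x)
      (τ := fun w => (g • w.1, shL g u w.2)) (U := {w | w.2 g u = true})
      (U' := {w | w.2 g⁻¹ u⁻¹ = true}) (hs u) (hs u⁻¹) (fun x => inv_smul_smul u x) hτ
      (hU g u) (hU g⁻¹ u⁻¹) (hν u) (fun D hD => hη.inv g u D hD) (fun D hD => hη'.inv g u D hD)
      D hD

end H597.CR
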