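import Pool.Agent.H724.DL.Stm

/-! DL-INV1: the invariant of the checker is preserved by invisible pairs. -/

set_option autoImplicit false

namespace Pool.Agent.H597.DL

open Pool.Agent.H724.DL

theorem inv1 (h : S_CAN) : S_INV1 := by
  intro Γ W R n c m A B om i d hI hom
  have hu : (can c (5 ^ m * A + (om + 1))).u = (can c (5 ^ m * B + (om + 1))).u := by
    obtain ⟨l, r, h0, h5, hr⟩ := exists_low (Nat.succ_pos om)
    rw [(h Γ c m A).1 (om + 1) (Nat.succ_pos om) hom l r h0 h5 hr,
      (h Γ c m B).1 (om + 1) (Nat.succ_pos om) hom l r h0 h5 hr]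
  set x := can c (5 ^ m * A + (om + 1)) with hx
  set y := can c (5 ^ m * B + (om + 1)) with hy
  have hd : ∀ d : DS W, dn R n (some (d, i)) x y =
      some ((istep R (decide (i.val = n)) d x y).1,
        act n (istep R (decide (i.val = n)) d x y).2 i) := by
    intro d
    simp only [dn, Option.bind_some, dstep, if_pos hu, Option.map_some]
  have key : ∀ g : Bool, wwin R n g (can c) (can c) (5 ^ m * A) (5 ^ m * B) (om + 1) =
      if IsCol x y then
        (R.ws (wwin R n g (can c) (can c) (5 ^ m * A) (5 ^ m * B) om).1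
            (decide ((wwin R n g (can c) (can c) (5 ^ m * A) (5 ^ m * B) om).2.val = n))
            (if g then x.k else y.k) (if g then y.k else x.k),
          act n .inc (wwin R n g (can c) (can c) (5 ^ m * A) (5 ^ m * B) om).2)
      else wwin R n g (can c) (can c) (5 ^ m * A) (5 ^ m * B) om := by
    intro g
    rw [hx, hy]
    rfl
  refine ⟨_, _, hd d, ?_⟩
  match d, hI with
  | .idle, hI => exact hI
  | .s1 l P Q, hI => exact hI
  | .s2 l P Q, hI => exact hI
  | .s4 l P Q, hI => exact hI
  | .s3 l P Q z none, hI =>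
    obtain ⟨a1, a2, a3, a4, a5, a6, a7, -⟩ := hI
    refine ⟨a1, a2, a3, a4, a5, a6, a7, ?_⟩
    intro w' hw'
    cases hw'
  | .s5 l P Q z none, hI =>
    obtain ⟨a1, a2, a3, a4, a5, a6, a7, -⟩ := hI
    refine ⟨a1, a2, a3, a4, a5, a6, a7, ?_⟩
    intro w' hw'
    cases hw'
  | .s3 l P Q z (some w), hI =>
    obtain ⟨a1, a2, a3, a4, a5, a6, a7, a8⟩ := hI
    obtain ⟨b1, b2⟩ := a8 w rfl
    have e1 : w = (wwin R n false (can c) (can c) (5 ^ m * A) (5 ^ m * B) om).1 := by
      rw [← b2]
    have e2 : i = (wwin R n false (can c) (can c) (5 ^ m * A) (5 ^ m * B) om).2 := by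
      rw [← b2]
    by_cases hc : IsCol x y
    · have e3 : istep R (decide (i.val = n)) (DS.s3 l P Q z (some w)) x y =
          (DS.s3 l P Q z (some (R.ws w (decide (i.val = n)) y.k x.k)), Act.inc) := by
        simp only [istep, if_pos hc]
      rw [e3]
      refine ⟨a1, a2, a3, a4, a5, a6, a7, ?_⟩
      intro w' hw'
      refine ⟨b1, ?_⟩
      rw [key false, if_pos hc, ← e1, ← e2]
      cases hw'
      rfl
    · have e3 : istep R (decide (i.val = n)) (DS.s3 l P Q z (some w)) x y =
          (DS.s3 l P Q z (some w), Act.keep) := by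
        simp only [istep, if_neg hc]
      rw [e3]
      refine ⟨a1, a2, a3, a4, a5, a6, a7, ?_⟩
      intro w' hw'
      refine ⟨b1, ?_⟩
      rw [key false, if_neg hc, ← b2]
      cases hw'
      rfl
  | .s5 l P Q z (some w), hI =>
    obtain ⟨a1, a2, a3, a4, a5, a6, a7, a8⟩ := hI
    obtain ⟨b1, b2⟩ := a8 w rfl
    have e1 : w = (wwin R n true (can c) (can c) (5 ^ m * A) (5 ^ m * B) om).1 := by
      rw [← b2]
    have e2 : i = (wwin R n true (can c) (can c) (5 ^ m * A) (5 ^ m * B) om).2 := by
      rw [← b2]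
    by_cases hc : IsCol x y
    · have e3 : istep R (decide (i.val = n)) (DS.s5 l P Q z (some w)) x y =
          (DS.s5 l P Q z (some (R.ws w (decide (i.val = n)) x.k y.k)), Act.inc) := by
        simp only [istep, if_pos hc]
      rw [e3]
      refine ⟨a1, a2, a3, a4, a5, a6, a7, ?_⟩
      intro w' hw'
      refine ⟨b1, ?_⟩
      rw [key true, if_pos hc, ← e1, ← e2]
      cases hw'
      rfl
    · have e3 : istep R (decide (i.val = n)) (DS.s5 l P Q z (some w)) x y =
          (DS.s5 l P Q z (some w), Act.keep) := by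
        simp only [istep, if_neg hc]
      rw [e3]
      refine ⟨a1, a2, a3, a4, a5, a6, a7, ?_⟩
      intro w' hw'
      refine ⟨b1, ?_⟩
      rw [key true, if_neg hc, ← b2]
      cases hw'
      rfl

end Pool.Agent.H597.DL
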