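import Pool.Agent.H770.GS.TA2
import Pool.Agent.H376.GScont

/-!
# TH-1 : the value of the diagonal section as an integral (helper597 for helper770)
-/

set_option autoImplicit false

open MeasureTheory Set intervalIntegral Filter Topology

namespace Pool.Agent.H597.TH

open Pool.Agent.Helper82.GC Pool.Agent.H770.GS

theorem dirAB_diag (k : ℕ) (d : ℝ) (i : Fin (k + 2)) : dirAB k d d i = d := by
  have h : (d :: d :: List.replicate k d) = List.replicate (k + 2) d := by
    rw [List.replicate_succ, List.replicate_succ]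
  unfold dirAB
  rw [h, vec_apply, List.getD_replicate _ i.isLt]

theorem diag_mem_KK (k : ℕ) :
    dirAB k (1 / Real.sqrt (k + 2)) (1 / Real.sqrt (k + 2)) ∈ KK k := by
  have hk : (0 : ℝ) < (k : ℝ) + 2 := by positivity
  have hs : 0 < Real.sqrt ((k : ℝ) + 2) := Real.sqrt_pos.2 hk
  have hd : (0 : ℝ) ≤ 1 / Real.sqrt ((k : ℝ) + 2) := by positivity
  refine ⟨?_, ?_, ?_⟩
  · rw [EuclideanSpace.norm_eq]
    simp only [dirAB_diag]
    rw [Finset.sum_const, Finset.card_univ, Fintype.card_fin, nsmul_eq_mul, Real.norm_eq_abs,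
      sq_abs, div_pow, Real.sq_sqrt hk.le]
    have : ((k + 2 : ℕ) : ℝ) * (1 ^ 2 / ((k : ℝ) + 2)) = 1 := by
      push_cast
      field_simp
    rw [this, Real.sqrt_one]
  · rw [dirAB_diag, dirAB_diag]
  · intro i
    rw [dirAB_diag, dirAB_diag, abs_of_nonneg hd]

/-- **TH1** (value at the main diagonal as an integral). -/
theorem TH1 : ∀ (r : ℝ) (k : ℕ), 0 < r →
    (2 * Real.pi) ^ (-((k + 1 : ℕ) : ℝ) / 2) *
        Asl r (dirAB k (1 / Real.sqrt (k + 2)) (1 / Real.sqrt (k + 2))) 0 =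
      (2 * Real.pi) ^ (-(((k + 2 : ℕ) : ℝ) + 1) / 2) * ∫ t : ℝ,
        (∫ x in (-r)..r, Real.cos (t * x / Real.sqrt (k + 2)) * Real.exp (-x ^ 2 / 2)) ^ (k + 2) := by
  intro r k hr
  have hk : (0 : ℝ) < (k : ℝ) + 2 := by positivity
  have hs : 0 < Real.sqrt ((k : ℝ) + 2) := Real.sqrt_pos.2 hk
  have hd : (0 : ℝ) ≤ 1 / Real.sqrt ((k : ℝ) + 2) := by positivity
  have hz := Zr_pos hr
  have hpi : (0 : ℝ) < 2 * Real.pi := by positivity
  rw [Pool.Agent.H376.GScont.Asl_eq hr (diag_mem_KK k)]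
  have e2 : -(((k + 2 : ℕ) : ℝ) + 1) / 2 = -((k + 1 : ℕ) : ℝ) / 2 + (-1) := by
    push_cast
    ring
  rw [e2, Real.rpow_add hpi, Real.rpow_neg_one]
  have e3 : ∫ t : ℝ,
        (∫ x in (-r)..r, Real.cos (t * x / Real.sqrt (k + 2)) * Real.exp (-x ^ 2 / 2)) ^ (k + 2) =
      Zr r ^ (k + 2) * ∫ t, Pool.Agent.H376.GScont.fI r
        (dirAB k (1 / Real.sqrt (k + 2)) (1 / Real.sqrt (k + 2))) t := by
    rw [← MeasureTheory.integral_const_mul]
    refine MeasureTheory.integral_congr_ae (Filter.Eventually.of_forall fun t => ?_)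
    show _ = Zr r ^ (k + 2) * Pool.Agent.H376.GScont.fI r
        (dirAB k (1 / Real.sqrt (k + 2)) (1 / Real.sqrt (k + 2))) t
    unfold Pool.Agent.H376.GScont.fI
    simp only [dirAB_diag]
    rw [Finset.prod_const, Finset.card_univ, Fintype.card_fin, ← mul_pow]
    congr 1
    rw [Real.sqrt_sq hd]
    unfold phi G
    rw [mul_div_cancel₀ _ hz.ne']
    refine intervalIntegral.integral_congr fun x _ => ?_
    show Real.cos (t * x / Real.sqrt (k + 2)) * Real.exp (-x ^ 2 / 2) =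
      Real.cos (1 / Real.sqrt (k + 2) * t * x) * Real.exp (-x ^ 2 / 2)
    have e4 : t * x / Real.sqrt ((k : ℝ) + 2) = 1 / Real.sqrt ((k : ℝ) + 2) * t * x := by ring
    rw [e4]
  rw [e3]
  field_simp

end Pool.Agent.H597.TH
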