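import Pool.Agent.H812.Tm.Spec1
import Pool.Graph.R_seed8.W308.Stu.Bdd
import Pool.Graph.R_seed8.W216.Stu.Hyp

/-!
# Escape with threshold `κ` (`SAl`), windows in runs (`SWin`)
-/

set_option autoImplicit false

namespace Pool.Agent.H597.Tm

open Pool.Agent.W811.Stu Pool.Agent.W308.Stu Pool.Agent.H812.Tm

/-- a bad state with threshold `κ` -/
def BadK (κ : ℝ) (p : P3) : Prop := κ < |p.z| ∧ κ < |p.y| ∧ (2 * |p.z| - 1) * |p.y| ≤ |p.x|

theorem BadK.bad {κ : ℝ} (hκ : 1 ≤ κ) {p : P3} (h : BadK κ p) : Bad p :=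
  ⟨lt_of_le_of_lt hκ h.1, lt_of_le_of_lt hκ h.2.1, h.2.2⟩

theorem BadK.step {κ : ℝ} (hκ : 1 ≤ κ) {p : P3} (h : BadK κ p) (b : ℕ) (hb : 1 ≤ b) :
    BadK κ (stepT b p) := by
  have hB := h.bad hκ
  obtain ⟨h1, h2⟩ := hB.step b hb
  refine ⟨?_, ?_, h1.2.2⟩
  · rw [stepT_eq]
    exact h.2.1
  · exact lt_of_lt_of_le (lt_of_lt_of_le h.2.1 hB.le.1) h2

/-- entering the bad region -/
theorem enterK {κ : ℝ} (hκ : 1 ≤ κ) {p : P3} (hz : |p.z| ≤ κ) (hy : κ < |p.y|) (b : ℕ)
    (ht : κ < |tq p b|) : BadK κ (stepT b p) := by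
  classical
  have hex : ∃ k, κ < |tq p k| := ⟨b, ht⟩
  have h1 := Nat.find_spec hex
  have h2 : Nat.find hex ≤ b := Nat.find_min' hex ht
  have h0 : Nat.find hex ≠ 0 := by
    intro h0
    rw [h0, tq_zero] at h1
    linarith
  obtain ⟨k, hk⟩ := Nat.exists_eq_succ_of_ne_zero h0
  have h3 : ¬ κ < |tq p k| := Nat.find_min hex (by omega)
  rw [hk] at h1 h2
  have h4 : |tq p k| ≤ |tq p (k + 1)| := by
    have : κ < |tq p (k + 1)| := h1
    linarith
  have h5 := Pool.Agent.W308.Stu.grow' p (hκ.trans hy.le) k h4 b h2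
  rw [stepT_eq]
  exact ⟨hy, ht, h5.2⟩

theorem tSAl : SAl := by
  intro κ hκ d hd p hpz M hM
  set o := orb d p with ho
  have hos : ∀ m, o (m + 1) = stepT (d m) (o m) := fun m => rfl
  have hzs : ∀ m, (o (m + 1)).z = (o m).y := by
    intro m; rw [hos, stepT_eq]
  have hys : ∀ m, (o (m + 1)).y = tq (o m) (d m) := by
    intro m; rw [hos, stepT_eq]
  intro i hi
  by_contra hcon
  push Not at hcon
  have hex : ∃ m, κ < |(o m).y| ∧ κ < |(o (m + 1)).y| := ⟨i, hcon⟩
  classical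
  obtain ⟨h1, h2⟩ := Nat.find_spec hex
  have hmi : Nat.find hex ≤ i := Nat.find_min' hex hcon
  set m := Nat.find hex with hm
  have hz : |(o m).z| ≤ κ := by
    rcases Nat.eq_zero_or_pos m with h0 | h0
    · rw [h0]
      exact hpz
    · have h3 := Nat.find_min hex (m := m - 1) (by omega)
      have e : m - 1 + 1 = m := by omega
      rw [e] at h3
      have h4 := hzs (m - 1)
      rw [e] at h4
      rw [h4]
      by_contra hcon
      push Not at hcon
      exact h3 ⟨hcon, h1⟩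
  have hB : BadK κ (o (m + 1)) := by
    rw [hos]
    apply enterK hκ hz h1 _
    rw [← hys]
    exact h2
  have hBall : ∀ e, BadK κ (o (m + 1 + e)) := by
    intro e
    induction e with
    | zero => exact hB
    | succ e ih =>
      rw [← add_assoc, hos]
      exact ih.step hκ _ (hd _)
  have hBM := hBall (M - (m + 1))
  have e : m + 1 + (M - (m + 1)) = M := by omega
  rw [e] at hBM
  exact absurd hBM.2.1 (not_lt.2 hM)

theorem tSWin : SWin := by
  intro δ κ hδ hκ hκc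
  obtain ⟨K, hK⟩ := Pool.Agent.W216.Stu.Hyp.hyp δ κ ((κ + cc δ) / 2) hδ (by linarith) (by linarith)
  refine ⟨K, ?_⟩
  intro p k1 k2 hS hy hk h1 h2
  have hit : ∀ i, k1 ≤ i → stepR^[i - k1] (stepR^[k1] p) = stepR^[i] p := by
    intro i hi
    rw [← Function.iterate_add_apply]
    congr 1
    omega
  obtain ⟨h3, h4⟩ := hK (stepR^[k1] p) (k2 - k1) (onS_stepR hS k1)
    (by rw [Pool.Agent.W308.Stu.stepR_y]; exact hy) h1 (by rw [hit k2 hk]; exact h2)
  constructor
  · intro i hi1 hi2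
    have := h3 (i - k1) (by omega)
    rwa [hit i hi1] at this
  · intro hle
    by_contra hcon
    have h5 := h4 (by omega)
    rw [Pool.Agent.W308.Stu.stepR_y] at h5
    linarith

end Pool.Agent.H597.Tm
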