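import Pool.Agent.H724.WE.SFStm

/-! Project WE (helper724), job WE-7 (AB8), by helper597: chain visits to a cell. -/

set_option autoImplicit false

namespace H597.WE

open H724.WE H724.WE.SF Finset
open scoped Classical

variable {V ι : Type} (G : SF V ι)

lemma hd_ne_tl {d : Dart ι} (hd : G.val d) : G.hd d ≠ G.tl d := by
  intro h
  exact G.tl_not_mem_far hd (h ▸ G.hd_mem_far d)

lemma nx_far {e f : Dart ι} (h : G.Nx e f) : G.far f ⊆ G.far e ∧ G.hd e ∉ G.far f := by
  obtain ⟨he, hf, htl, hne, -, -⟩ := h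
  have h2 : G.hd e ∉ G.far f := by
    rw [← htl]
    exact G.tl_not_mem_far hf.1
  have hed : ed f ≠ ed e := by
    intro hh
    rcases eq_or_eq_rev hh.symm with h3 | h3
    · rw [h3] at htl
      exact hd_ne_tl G he.1 htl.symm
    · exact hne h3
  have h1 : G.tl f ∈ G.far e := by
    rw [htl]
    exact G.hd_mem_far e
  exact ⟨(G.nest he.1 hf.1 hed h1 h2).1, h2⟩

lemma chain_far {d : ℕ → Dart ι} {m : ℕ} (hc : G.IsChain d m) {t : ℕ} :
    ∀ {t' : ℕ}, t ≤ t' → t' ≤ m → G.far (d t') ⊆ G.far (d t) := by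
  intro t' h
  induction t', h using Nat.le_induction with
  | base => intro _; exact subset_refl _
  | succ n hn ih =>
    intro hm
    exact (nx_far G (hc n (by omega))).1.trans (ih (by omega))

lemma chain_hd {d : ℕ → Dart ι} {m : ℕ} (hc : G.IsChain d m) {t t' : ℕ} (h : t < t')
    (hm : t' ≤ m) : G.hd (d t) ∉ G.far (d t') := by
  intro h1
  exact (nx_far G (hc t (by omega))).2 (chain_far G hc (t := t + 1) (by omega) hm h1)

lemma chain_tl {d : ℕ → Dart ι} {m : ℕ} (hc : G.IsChain d m) {t t' : ℕ} (h : t < t')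
    (hm : t' ≤ m) : G.tl (d t') ∈ G.far (d t) := by
  obtain ⟨n, rfl⟩ : ∃ n, t' = n + 1 := ⟨t' - 1, by omega⟩
  have h1 := hc n (by omega)
  rw [h1.2.2.1]
  exact chain_far G hc (t := t) (t' := n) (by omega) (by omega) (G.hd_mem_far _)

lemma chain_core {d : ℕ → Dart ι} {m : ℕ} (hc : G.IsChain d m) {t : ℕ} (hm : t ≤ m)
    (h0 : 0 < m) : G.core (d t) := by
  rcases Nat.lt_or_ge t m with h | h
  · exact (hc t h).1
  · obtain ⟨n, rfl⟩ : ∃ n, t = n + 1 := ⟨t - 1, by omega⟩
    exact (hc n (by omega)).2.1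

/-- a step where a property is lost -/
lemma exists_step {A : ℕ → Prop} {q q' : ℕ} (hq : q ≤ q') (h1 : A q) (h2 : ¬ A q') :
    ∃ t, q ≤ t ∧ t < q' ∧ A t ∧ ¬ A (t + 1) := by
  induction q', hq using Nat.le_induction with
  | base => exact absurd h1 h2
  | succ n hn ih =>
    by_cases hA : A n
    · exact ⟨n, hn, by omega, hA, h2⟩
    · obtain ⟨t, a, b, c, e⟩ := ih hA
      exact ⟨t, a, by omega, c, e⟩

/-- points lost at a step of the chain are the head or in the far side of a light dart -/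
lemma lost {e f : Dart ι} (h : G.Nx e f) {x : V} (h1 : x ∈ G.far e) (h2 : x ∉ G.far f) :
    x = G.hd e ∨ ∃ g : Dart ι, G.val g ∧ ed g ≠ ed e ∧ G.tl g = G.hd e ∧ G.light g ∧
      x ∈ G.far g := by
  rcases G.far_cases h1 with h3 | ⟨g, hg, hne, htl, hx⟩
  · exact Or.inl h3
  · right
    refine ⟨g, hg, hne, htl, ?_, hx⟩
    by_contra hl
    rcases h.2.2.2.2.2 g hg htl hl with h4 | h4
    · rw [h4] at hx
      exact h2 hx
    · apply hne
      rw [h4, ed_rev]

section brk

variable [Fintype ι]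

lemma not_brk {i : ι} {o₁ o₂ k : ℕ} (h : G.cid i o₁ = G.cid i o₂) (h1 : o₁ ≤ k) (h2 : k < o₂) :
    (i, k) ∉ G.Brk := by
  intro hb
  unfold cid at h
  have hsub : G.Brk.filter (fun e => e.1 = i ∧ e.2 < o₁) ⊆
      G.Brk.filter (fun e => e.1 = i ∧ e.2 < o₂) := by
    intro e he
    rw [Finset.mem_filter] at he ⊢
    exact ⟨he.1, he.2.1, by omega⟩
  have heq := Finset.eq_of_subset_of_card_le hsub h.ge
  have hmem : (i, k) ∈ G.Brk.filter (fun e => e.1 = i ∧ e.2 < o₂) :=
    Finset.mem_filter.2 ⟨hb, rfl, h2⟩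
  rw [← heq, Finset.mem_filter] at hmem
  have := hmem.2.2
  simp only at this
  omega

lemma brk_consequence {i : ι} {k : ℕ} (hb : (i, k) ∉ G.Brk) (hr : G.r ≤ k) (hl : k + 1 < G.l) :
    (i, k + 1) ∉ G.Mk ∧ (G.core (i, k, false) ↔ G.core (i, k + 1, false)) := by
  unfold Brk at hb
  rw [Finset.mem_filter] at hb
  push Not at hb
  have h1 : (i, k) ∈ (univ : Finset ι) ×ˢ Finset.Ico G.r G.l := by
    rw [Finset.mem_product, Finset.mem_Ico]
    exact ⟨Finset.mem_univ _, hr, by
      show k < G.l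
      omega⟩
  have h2 := hb h1 hl
  exact h2

end brk

lemma core_false {i : ι} {o : ℕ} {s : Bool} (h : G.core (i, o, s)) : G.core (i, o, false) := by
  cases s
  · exact h
  · have := (G.core_rev (d := (i, o, true))).2 h
    exact this

/-- membership in the far side is constant along the other edges -/
lemma far_edge {d : Dart ι} {j : ι} {o : ℕ} (h1 : G.r ≤ o) (h2 : o < G.l)
    (hne : (j, o) ≠ ed d) : G.pt false j o ∈ G.far d ↔ G.pt true j o ∈ G.far d :=
  G.far_closed_iff (d := d) (f := (j, o, true)) ⟨h1, h2⟩ hne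

lemma core_between [Fintype ι] {i : ι} {o₁ o₂ : ℕ} (hcid : G.cid i o₁ = G.cid i o₂)
    (hr : G.r ≤ o₁) (hl : o₂ < G.l) (hcore : G.core (i, o₁, false)) :
    ∀ {k : ℕ}, o₁ ≤ k → k ≤ o₂ → G.core (i, k, false) := by
  intro k hk
  induction k, hk using Nat.le_induction with
  | base => intro _; exact hcore
  | succ n hn ih =>
    intro hm
    have h1 := not_brk G hcid (k := n) hn (by omega)
    have h2 := brk_consequence G h1 (by omega) (by omega)
    exact h2.2.1 (ih (by omega))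

/-- the pump argument -/
lemma hit [Fintype ι] (hNP : G.NoPump) {i : ι} {σ : Bool} {o₁ o₂ : ℕ} {T : Set V}
    (hT : ∀ x ∈ T, x ∉ G.Z) (hlt : o₁ < o₂) (hr : G.r ≤ o₁) (hl : o₂ < G.l)
    (hcid : G.cid i o₁ = G.cid i o₂)
    (h1 : G.pt σ i o₁ ∈ T) (h2 : G.pt (!σ) i o₁ ∉ T) (h3 : G.pt (!σ) i o₂ ∈ T)
    (h4 : G.pt σ i o₂ ∉ T)
    (hedge : ∀ j o, G.r ≤ o → o < G.l → (j, o) ≠ (i, o₁) → (j, o) ≠ (i, o₂) →
      (G.pt false j o ∈ T ↔ G.pt true j o ∈ T)) :
    ∃ k, o₁ < k ∧ k < o₂ ∧ G.pt false i k ∈ T ∧ G.pt true i k ∈ T := by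
  by_contra hno
  refine hNP (fun v => if v ∈ T then 1 else 0) ⟨⟨G.pt σ i o₁, ?_⟩, ?_, Or.inr
    ⟨i, σ, o₁, o₂, hlt, hr, hl, ?_, ?_, ?_, ?_, ?_⟩⟩
  · simp only [if_pos h1]
    exact one_ne_zero
  · intro v hv
    have : v ∉ T := fun h => hT v h hv
    simp only [if_neg this]
  · simp only [if_pos h1, if_neg h2]
  · simp only [if_pos h3, if_neg h4]
  · intro t k hk1 hk2
    have hk := hedge i k (by omega) (by omega)
      (by intro h; have := (Prod.mk.inj h).2; omega)
      (by intro h; have := (Prod.mk.inj h).2; omega)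
    have : G.pt t i k ∉ T := by
      intro h
      apply hno
      cases t
      · exact ⟨k, hk1, hk2, h, hk.1 h⟩
      · exact ⟨k, hk1, hk2, hk.2 h, h⟩
    simp only [if_neg this]
  · intro k hk1 hk2
    obtain ⟨n, rfl⟩ : ∃ n, k = n + 1 := ⟨k - 1, by omega⟩
    have h5 := not_brk G hcid (k := n) (by omega) (by omega)
    exact (brk_consequence G h5 (by omega) (by omega)).1
  · intro j o ho1 ho2 hne1 hne2
    have hk := hedge j o ho1 ho2 hne1 hne2
    by_cases h : G.pt false j o ∈ T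
    · simp only [if_pos h, if_pos (hk.1 h)]
    · have h' : G.pt true j o ∉ T := fun h' => h (hk.2 h')
      simp only [if_neg h, if_neg h']

/-- a core edge with an end in the far side of a light dart: contradiction -/
lemma light_core {g : Dart ι} (hg : G.val g) (hgl : G.light g) {i : ι} {k : ℕ}
    (hcore : G.core (i, k, false)) {t : Bool} (hx : G.pt t i k ∈ G.far g) : False := by
  by_cases hed : ((i, k) : ι × ℕ) = ed g
  · rcases eq_or_eq_rev (d := (i, k, false)) (f := g) hed with h | h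
    · rw [h] at hgl
      exact hcore.2.1 hgl
    · rw [h] at hgl
      exact hcore.2.2 hgl
  · have hval : G.val (i, k, false) := hcore.1
    have hiff := far_edge G (d := g) (j := i) (o := k) hval.1 hval.2 hed
    have hboth : G.pt false i k ∈ G.far g ∧ G.pt true i k ∈ G.far g := by
      cases t
      · exact ⟨hx, hiff.1 hx⟩
      · exact ⟨hiff.2 hx, hx⟩
    rcases G.dich (d := g) (f := (i, k, false)) hval with h | h
    · have h1 := G.nest (d := g) (f := (i, k, false)) hg hval hed hboth.2 h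
      apply hcore.2.1
      intro x hx
      exact hgl x (h1.1 hx)
    · have h1 := G.nest (d := g) (f := rev (i, k, false)) hg hval hed hboth.1 h
      apply hcore.2.2
      intro x hx
      exact hgl x (h1.1 hx)

theorem chainSame : S_chainSame := by
  intro V ι _ _ G hNP d m hc q q' hqq hqm hband hside hcid
  have hm0 : 0 < m := by omega
  have hcq : G.core (d q) := chain_core G hc (by omega) hm0
  have hcq' : G.core (d q') := chain_core G hc (by omega) hm0
  -- facts about the ends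
  have f1 : G.hd (d q) ∈ G.far (d q) := G.hd_mem_far _
  have f2 : G.hd (d q) ∉ G.far (d q') := chain_hd G hc hqq hqm
  have f3 : G.tl (d q) ∉ G.far (d q) := G.tl_not_mem_far hcq.1
  have f4 : G.tl (d q') ∈ G.far (d q) := chain_tl G hc hqq hqm
  have f5 : G.tl (d q') ∉ G.far (d q') := G.tl_not_mem_far hcq'.1
  have f6 : G.hd (d q') ∈ G.far (d q') := G.hd_mem_far _
  obtain ⟨T, hTdef⟩ : ∃ T : Set V, T = G.far (d q) \ G.far (d q') := ⟨_, rfl⟩
  have hT : ∀ x ∈ T, x ∉ G.Z := by
    intro x hx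
    rw [hTdef] at hx
    obtain ⟨t, ht1, ht2, ht3, ht4⟩ := exists_step (A := fun t => x ∈ G.far (d t)) hqq.le hx.1 hx.2
    have hN := hc t (by omega)
    rcases lost G hN ht3 ht4 with h | ⟨g, -, -, -, hgl, hxg⟩
    · rw [h]
      exact hN.2.2.2.2.1
    · exact hgl x hxg
  have hedge : ∀ j o, G.r ≤ o → o < G.l → (j, o) ≠ ed (d q) → (j, o) ≠ ed (d q') →
      (G.pt false j o ∈ T ↔ G.pt true j o ∈ T) := by
    intro j o h1 h2 h3 h4
    rw [hTdef, Set.mem_sdiff, Set.mem_sdiff, far_edge G h1 h2 h3, far_edge G h1 h2 h4]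
  -- coordinates
  obtain ⟨i, hi⟩ : ∃ i, i = (d q).1 := ⟨_, rfl⟩
  obtain ⟨o, ho⟩ : ∃ o, o = (d q).2.1 := ⟨_, rfl⟩
  obtain ⟨o', ho'⟩ : ∃ o, o = (d q').2.1 := ⟨_, rfl⟩
  obtain ⟨s, hs⟩ : ∃ s, s = (d q).2.2 := ⟨_, rfl⟩
  have hdq : d q = (i, o, s) := by rw [hi, ho, hs]
  have hdq' : d q' = (i, o', s) := by rw [hi, ho', hs, hband, hside]
  rw [← hband, ← hi, ← ho, ← ho'] at hcid
  rw [← hi, ← ho, ← ho']
  have hoo : o ≠ o' := by
    intro h
    apply f2
    have : d q = d q' := by rw [hdq, hdq', h]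
    rw [this]
    exact f6
  have hvq : G.r ≤ o ∧ o < G.l := by
    have := hcq.1
    rw [hdq] at this
    exact this
  have hvq' : G.r ≤ o' ∧ o' < G.l := by
    have := hcq'.1
    rw [hdq'] at this
    exact this
  have hedq : ed (d q) = (i, o) := by rw [hdq]; rfl
  have hedq' : ed (d q') = (i, o') := by rw [hdq']; rfl
  rw [hedq, hedq'] at hedge
  have g1 : G.pt s i o ∈ T := by
    have : G.hd (d q) = G.pt s i o := by rw [hdq]; rfl
    rw [hTdef, ← this]
    exact ⟨f1, f2⟩
  have g2 : G.pt (!s) i o ∉ T := by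
    have : G.tl (d q) = G.pt (!s) i o := by rw [hdq]; rfl
    rw [hTdef, ← this]
    exact fun h => f3 h.1
  have g3 : G.pt (!s) i o' ∈ T := by
    have : G.tl (d q') = G.pt (!s) i o' := by rw [hdq']; rfl
    rw [hTdef, ← this]
    exact ⟨f4, f5⟩
  have g4 : G.pt s i o' ∉ T := by
    have : G.hd (d q') = G.pt s i o' := by rw [hdq']; rfl
    rw [hTdef, ← this]
    exact fun h => h.2 f6
  have hco : G.core (i, o, false) := core_false G (s := s) (hdq ▸ hcq)
  have hco' : G.core (i, o', false) := core_false G (s := s) (hdq' ▸ hcq')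
  have key : ∃ k, min o o' < k ∧ k < max o o' ∧ G.core (i, k, false) ∧
      G.pt false i k ∈ T ∧ G.pt true i k ∈ T := by
    rcases Nat.lt_or_gt_of_ne hoo with h | h
    · obtain ⟨k, hk1, hk2, hk3, hk4⟩ := hit G hNP hT h hvq.1 hvq'.2 hcid g1 g2 g3 g4 hedge
      refine ⟨k, ?_, ?_, core_between G hcid hvq.1 hvq'.2 hco hk1.le hk2.le, hk3, hk4⟩
      · rw [min_eq_left h.le]; exact hk1
      · rw [max_eq_right h.le]; exact hk2
    · obtain ⟨k, hk1, hk2, hk3, hk4⟩ := hit G hNP (σ := !s) hT h hvq'.1 hvq.2 hcid.symm g3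
        (by simpa using g4) (by simpa using g1) g2
        (fun j o ho1 ho2 h1 h2 => hedge j o ho1 ho2 h2 h1)
      refine ⟨k, ?_, ?_, core_between G hcid.symm hvq'.1 hvq.2 hco' hk1.le hk2.le, hk3, hk4⟩
      · rw [min_eq_right h.le]; exact hk1
      · rw [max_eq_left h.le]; exact hk2
  obtain ⟨k, hk1, hk2, hkc, hkF, hkT⟩ := key
  rw [hTdef] at hkF hkT
  have hkval : G.val (i, k, false) := hkc.1
  obtain ⟨t, ht1, ht2, ht3, ht4⟩ := exists_step
    (A := fun t => G.pt false i k ∈ G.far (d t) ∧ G.pt true i k ∈ G.far (d t)) hqq.le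
    ⟨hkF.1, hkT.1⟩ (fun h => hkF.2 h.1)
  have hN := hc t (by omega)
  by_cases hed : ((i, k) : ι × ℕ) = ed (d (t + 1))
  · have hb : (d (t + 1)).1 = i := (congrArg Prod.fst hed).symm
    have hoff : (d (t + 1)).2.1 = k := (congrArg Prod.snd hed).symm
    refine ⟨t + 1, by omega, ?_, hb, by rw [hoff]; exact hk1, by rw [hoff]; exact hk2⟩
    rcases Nat.lt_or_ge (t + 1) q' with h | h
    · exact h
    · exfalso
      have : t + 1 = q' := by omega
      rw [this, ← ho'] at hoff
      rcases Nat.lt_or_gt_of_ne hoo with h | h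
      · rw [max_eq_right h.le] at hk2
        omega
      · rw [min_eq_right h.le] at hk1
        omega
  · exfalso
    have hiff := far_edge G (d := d (t + 1)) (j := i) (o := k) hkval.1 hkval.2 hed
    have hnF : G.pt false i k ∉ G.far (d (t + 1)) := fun h => ht4 ⟨h, hiff.1 h⟩
    have hnT : G.pt true i k ∉ G.far (d (t + 1)) := fun h => ht4 ⟨hiff.2 h, h⟩
    rcases lost G hN ht3.1 hnF with h1 | ⟨g, hg, -, -, hgl, hxg⟩
    · rcases lost G hN ht3.2 hnT with h2 | ⟨g, hg, -, -, hgl, hxg⟩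
      · exact hd_ne_tl G hkval (h1.trans h2.symm)
      · exact light_core G hg hgl hkc (t := true) hxg
    · exact light_core G hg hgl hkc (t := false) hxg

end H597.WE
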